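import Pool.Agent.Helper69.CKC.KOneC
import Pool.Agent.Helper69.CK.ConvC
import Pool.Agent.Helper84.CK.KOneWd
set_option autoImplicit false
open Complex MeasureTheory Metric Set
open scoped Real ComplexConjugate

/-!
# Project CKC: the bound for one target from a pointwise certificate, direction `u`
-/

namespace Pool.Agent.Helper69.CKC

open Pool.Agent.Helper39.Area Pool.Agent.Helper52.EK Pool.Agent.Helper69.EK3
open Pool.Agent.Helper69.EK7 Pool.Agent.Helper84.CK Pool.Agent.Helper68.EKC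
open Pool.Agent.Helper69.CK

/-- the bounds of Koebe and Bieberbach with an integrable error, on the full strip -/
def DiscF (X : ℂ → ℂ) (x₁ x₂ : ℝ) : Prop :=
  ∃ δ : ℝ → ℝ, Continuous δ ∧ (∀ ξ, 0 ≤ δ ξ) ∧ (∀ ξ ∈ Icc x₁ x₂, δ ξ ≤ 8) ∧
    (∫ ξ in x₁..x₂, δ ξ ≤ 8) ∧ ∀ ξ ∈ Icc x₁ x₂, ∀ η ∈ Icc (0:ℝ) π,
      Real.sin η * ‖X (pt ξ η)‖ ≤ 1 + δ ξ ∧
      ‖dA 1 (X (pt ξ η)) (deriv X (pt ξ η)) (Real.sin η) (Real.cos η)‖ ≤ 4 * (1 + δ ξ) ∧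
      ‖dA (-1) (X (pt ξ η)) (deriv X (pt ξ η)) (Real.sin η) (Real.cos η)‖ ≤ 4 * (1 + δ ξ)

theorem DiscF.X_le {X : ℂ → ℂ} {x₁ x₂ : ℝ} (h : DiscF X x₁ x₂) :
    ∀ ξ ∈ Icc x₁ x₂, ∀ η ∈ Icc (0:ℝ) π, Real.sin η * ‖X (pt ξ η)‖ ≤ 9 := by
  obtain ⟨δ, _, _, h3, _, h5⟩ := h
  intro ξ hξ η hη
  obtain ⟨k1, _, _⟩ := h5 ξ hξ η hη
  linarith [h3 ξ hξ]

theorem DiscF.q_le {X : ℂ → ℂ} {x₁ x₂ : ℝ} (h : DiscF X x₁ x₂) :
    ∀ ξ ∈ Icc x₁ x₂, ∀ η ∈ Icc (0:ℝ) π,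
      Real.sin η * ‖deriv X (pt ξ η) / X (pt ξ η)‖ ≤ 38 := by
  obtain ⟨δ, _, _, h3, _, h5⟩ := h
  intro ξ hξ η hη
  obtain ⟨k1, k2, _⟩ := h5 ξ hξ η hη
  exact sin_q_le (sin_nn' hη) (h3 ξ hξ) k1 k2

theorem discF_Xf (β : ℂ → ℂ) (R a : ℝ) (h : ExtR β R) (ha : 0 < a) (ha1 : a < 1)
    (_hx : Real.log (tau a) + 1 ≤ -1) : DiscF (Xf β a) (Real.log (tau a) + 1) (-1) := by
  obtain ⟨⟨_, _, _, _, _, _⟩, _⟩ := discP_Xf β R a h ha ha1 _hx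
  have hc : Continuous (fun ξ : ℝ => 4 * Real.exp ξ + 4 * Real.exp (Real.log (tau a) - ξ)) := by
    fun_prop
  have h0 : ∀ ξ : ℝ, 0 ≤ 4 * Real.exp ξ + 4 * Real.exp (Real.log (tau a) - ξ) := fun ξ => by
    positivity
  have h8 : ∀ ξ ∈ Icc (Real.log (tau a) + 1) (-1),
      4 * Real.exp ξ + 4 * Real.exp (Real.log (tau a) - ξ) ≤ 8 := by
    intro ξ hξ
    have h1 : Real.exp ξ ≤ 1 := Real.exp_le_one_iff.2 (by linarith [hξ.2])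
    have h2 : Real.exp (Real.log (tau a) - ξ) ≤ 1 := Real.exp_le_one_iff.2 (by linarith [hξ.1])
    linarith
  have hI : ∫ ξ in (Real.log (tau a) + 1)..(-1),
      (4 * Real.exp ξ + 4 * Real.exp (Real.log (tau a) - ξ)) ≤ 8 := by
    have i1 : IntervalIntegrable (fun ξ : ℝ => 4 * Real.exp ξ) volume
        (Real.log (tau a) + 1) (-1) :=
      (by fun_prop : Continuous fun ξ : ℝ => 4 * Real.exp ξ).intervalIntegrable _ _
    have i2 : IntervalIntegrable (fun ξ : ℝ => 4 * Real.exp (Real.log (tau a) - ξ)) volume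
        (Real.log (tau a) + 1) (-1) :=
      (by fun_prop : Continuous fun ξ : ℝ => 4 * Real.exp (Real.log (tau a) - ξ)).intervalIntegrable
        _ _
    rw [intervalIntegral.integral_add i1 i2, intervalIntegral.integral_const_mul,
      intervalIntegral.integral_const_mul,
      intervalIntegral.integral_comp_sub_left (fun u => Real.exp u) (Real.log (tau a)),
      integral_exp, integral_exp]
    have e1 : Real.exp (-1) ≤ 1 := Real.exp_le_one_iff.2 (by norm_num)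
    have e2 := Real.exp_pos (Real.log (tau a) + 1)
    have e3 : Real.exp (Real.log (tau a) - (Real.log (tau a) + 1)) ≤ 1 :=
      Real.exp_le_one_iff.2 (by linarith)
    have e4 := Real.exp_pos (Real.log (tau a) - -1)
    linarith
  exact ⟨_, hc, h0, h8, hI, fun ξ hξ η hη => disc_Xf h ha ha1 hξ.1 hξ.2 hη.1 hη.2⟩

/-! ### the term of the multiplier -/

theorem MtC_cont_X {M : ℂ → ℂ} (hM : Continuous M) (q : ℂ) (X : ℂ → ℂ) (x₁ x₂ : ℝ)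
    (hX : NiceX X x₁ x₂) : CH x₁ x₂ π (MtC M q X) := by
  have h1 := contF hX.an.continuousOn
  have h2 := contF hX.an.deriv.continuousOn
  have h0 : ∀ p ∈ Icc x₁ x₂ ×ˢ Icc 0 π, X (pt p.1 p.2) ≠ 0 := fun p hp =>
    hX.ne _ (pt_mem hp.1 hp.2)
  have h3 := h2.div h1 h0
  have h4 : ContinuousOn (fun p : ℝ × ℝ => e0 (Real.sin p.2) (Real.cos p.2))
      (Icc x₁ x₂ ×ˢ Icc 0 π) := by
    apply Continuous.continuousOn
    unfold e0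
    fun_prop
  have h5 : ContinuousOn (fun p : ℝ × ℝ => mX (X (pt p.1 p.2)) (deriv X (pt p.1 p.2))
      (Real.sin p.2) (Real.cos p.2)) (Icc x₁ x₂ ×ˢ Icc 0 π) := by
    unfold mX
    exact ((continuousOn_const.add h4).mul
      (((continuousOn_const.mul h1).sub continuousOn_const).add h3)).sub continuousOn_const
  unfold MtC
  exact Complex.continuous_re.comp_continuousOn (((hM.comp_continuousOn h5).mul h4).mul
    ((h1.pow 2).sub continuousOn_const))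

/-- **the bound for one target from a certificate in the direction `u`** -/
theorem K_oneC_d {k₂ lam dc κ L₀ B : ℝ} {q u : ℂ} (hu : ‖u‖ = 1) (line : LineC u)
    (hB : 0 ≤ B) (hlam : 0 ≤ lam) (hk₂ : lam ≤ k₂)
    (hdc : 0 ≤ dc) (hκ : k₂ < 2 * κ) {G : ℂ → ℂ → ℂ} (hG : GLip2 G L₀)
    {M : ℂ → ℂ} (hM : Continuous M)
    {Nl : (ℂ → ℂ) → ℝ → ℝ → ℝ} (hN : IsNullC DiscF Nl)
    (hp : ∀ (X : ℂ → ℂ) (x₁ x₂ : ℝ), NiceX X x₁ x₂ → ∀ ξ ∈ Icc x₁ x₂,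
      ∀ η ∈ Icc (0:ℝ) π, Real.sin η * ‖X (pt ξ η)‖ ≤ 9 →
      Real.sin η * ‖deriv X (pt ξ η) / X (pt ξ η)‖ ≤ 38 → ∃ l₀ l₁ l₂ : ℝ,
      0 ≤ l₀ ∧ l₀ ≤ B ∧ 0 ≤ l₁ ∧ l₁ ≤ B ∧ 0 ≤ l₂ ∧ l₂ ≤ B ∧
      T2 G X ξ η + l₀ * (1 - (Real.sin η * ‖X (pt ξ η)‖) ^ 2) +
        l₁ * (16 - ‖dA 1 (X (pt ξ η)) (deriv X (pt ξ η)) (Real.sin η) (Real.cos η)‖ ^ 2) +
        l₂ * (16 - ‖dA (-1) (X (pt ξ η)) (deriv X (pt ξ η)) (Real.sin η) (Real.cos η)‖ ^ 2) ≤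
      k₂ * fu u (X (pt ξ η)) + lam * (‖X (pt ξ η)‖ ^ 2 - (X (pt ξ η)).re) + dc +
        Nl X ξ η + MtC M q X ξ η) :
    ∃ e C₄ V₀ a₀ : ℝ, 0 < e ∧ 0 ≤ C₄ ∧ 0 < V₀ ∧ a₀ < 1 ∧
      ∀ ε : ℝ, 0 < ε → ∃ C : ℝ, 0 ≤ C ∧
      ∀ (β L : ℂ → ℂ) (R a V : ℝ) (Ω Ω₁ Ω₂ : ℝ → ℝ → ℝ), ExtR β R → IsLog β L → a₀ < a → a < 1 →
      0 ≤ V → V ≤ V₀ → WtF (Real.log (tau a) + 1) (-1) V Ω Ω₁ Ω₂ →
      Kf (wf2 G β) 1 (-1) (Real.log a) +
          e * II (Real.log (tau a) + 1) (-1) (fun ξ η => ‖Xf β a (pt ξ η) - (1 + u) / 2‖ ^ 2) ≤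
        κ * (- Real.log (1 - a ^ 2) + (conj u * L a).re) +
          π⁻¹ * II (Real.log (tau a) + 1) (-1) (fun ξ η => Ω ξ η * MtC M q (Xf β a) ξ η) +
          C₄ * II (Real.log (tau a) + 1) (-1) (fun ξ η => 1 - Ω ξ η) +
          (dc + ε) * (-1 - (Real.log (tau a) + 1)) +
          C * (1 + V * (-1 - (Real.log (tau a) + 1))) := by
  refine K_oneC (adm := DiscF) (T := T2 G) hu (E3F hG 1 le_rfl) (T2_le4 hG)
    (fun X x₁ x₂ hX => F3_contOn hG hX) discF_Xf line ?_ hlam hk₂ hκ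
  refine stripC (P := DiscF) (T := T2 G) (Mt := MtC M q) (D := 330 * B * 8) (dc := dc)
    hlam hk₂ hdc hu (fun X x₁ x₂ hX => F3_contOn hG hX) (MtC_cont_X hM q) hN ?_
  intro X x₁ x₂ hx hX hP
  have q9 := hP.X_le
  have q38 := hP.q_le
  obtain ⟨δ, h1, h2, h3, h4, h5⟩ := hP
  refine ⟨fun ξ => 330 * B * δ ξ, by fun_prop, fun ξ => by have := h2 ξ; positivity, ?_, ?_⟩
  · rw [intervalIntegral.integral_const_mul]
    exact mul_le_mul_of_nonneg_left h4 (by positivity)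
  · intro ξ hξ η hη
    have hs : 0 ≤ Real.sin η := sin_nn' hη
    obtain ⟨l₀, l₁, l₂, a1, a2, b1, b2, c1, c2, hl⟩ := hp X x₁ x₂ hX ξ hξ η hη
      (q9 ξ hξ η hη) (q38 ξ hξ η hη)
    obtain ⟨k1, k2, k3⟩ := h5 ξ hξ η hη
    have hd0 := h2 ξ
    have hd8 := h3 ξ hξ
    set d := δ ξ with hd
    have s1 : (Real.sin η * ‖X (pt ξ η)‖) ^ 2 ≤ 1 + 10 * d := by
      have := pow_le_pow_left₀ (mul_nonneg hs (norm_nonneg _)) k1 2
      nlinarith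
    have s2 : ‖dA 1 (X (pt ξ η)) (deriv X (pt ξ η)) (Real.sin η) (Real.cos η)‖ ^ 2 ≤
        16 + 160 * d := by
      have := pow_le_pow_left₀ (norm_nonneg _) k2 2
      nlinarith
    have s3 : ‖dA (-1) (X (pt ξ η)) (deriv X (pt ξ η)) (Real.sin η) (Real.cos η)‖ ^ 2 ≤
        16 + 160 * d := by
      have := pow_le_pow_left₀ (norm_nonneg _) k3 2
      nlinarith
    have m1 : l₀ * ((Real.sin η * ‖X (pt ξ η)‖) ^ 2 - 1) ≤ B * (10 * d) :=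
      (mul_le_mul_of_nonneg_left (by linarith : _ ≤ 10 * d) a1).trans
        (mul_le_mul_of_nonneg_right a2 (by positivity))
    have m2 : l₁ * (‖dA 1 (X (pt ξ η)) (deriv X (pt ξ η)) (Real.sin η) (Real.cos η)‖ ^ 2 - 16) ≤
        B * (160 * d) :=
      (mul_le_mul_of_nonneg_left (by linarith : _ ≤ 160 * d) b1).trans
        (mul_le_mul_of_nonneg_right b2 (by positivity))
    have m3 : l₂ * (‖dA (-1) (X (pt ξ η)) (deriv X (pt ξ η)) (Real.sin η) (Real.cos η)‖ ^ 2 -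
        16) ≤ B * (160 * d) :=
      (mul_le_mul_of_nonneg_left (by linarith : _ ≤ 160 * d) c1).trans
        (mul_le_mul_of_nonneg_right c2 (by positivity))
    linarith

end Pool.Agent.Helper69.CKC
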