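import Pool.Agent.Helper69.CKC.KOneCd
import Pool.Agent.Helper69.CK.ConvC
import Pool.Agent.Helper77.CK.PT
import Pool.Agent.Helper73.CK.Cut
import Pool.Agent.Helper97.CKC.Defs
import Pool.Agent.Helper68.EKC.GibbsU

/-!
# CKC: the inequality for one target from its four parts, direction `u`
-/

set_option autoImplicit false
open Complex MeasureTheory Metric Set Filter Topology
open scoped Real ComplexConjugate

namespace Pool.Agent.Helper69.CKC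

open Pool.Agent.Helper39.Area Pool.Agent.Helper52.EK Pool.Agent.Helper52.CK
open Pool.Agent.Helper84.CK (WtF)
open Pool.Agent.Helper69.CK (MOk Mh MtC)
open Pool.Agent.Helper9.EK (rotβ)
open Pool.Agent.Helper68.EKC (IsLog)
open Pool.Agent.Helper77.CK (len_le tau_far' exp_m2 crude)
open Pool.Agent.Helper97.CKC (MC PTC)

/-- the bound for the target on the real axis, with a weight, direction `u` -/
def KOneStmtC (κ dc : ℝ) (u : ℂ) (G M : ℂ → ℂ) (q : ℂ) : Prop :=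
  ∃ e C₄ V₀ a₀ : ℝ, 0 < e ∧ 0 ≤ C₄ ∧ 0 < V₀ ∧ a₀ < 1 ∧
    ∀ ε : ℝ, 0 < ε → ∃ C : ℝ, 0 ≤ C ∧
    ∀ (β L : ℂ → ℂ) (R a V : ℝ) (Ω Ω₁ Ω₂ : ℝ → ℝ → ℝ), ExtR β R → IsLog β L → a₀ < a → a < 1 →
    0 ≤ V → V ≤ V₀ → WtF (Real.log (tau a) + 1) (-1) V Ω Ω₁ Ω₂ →
    Kf (wf G β) 1 (-1) (Real.log a) +
        e * II (Real.log (tau a) + 1) (-1) (fun ξ η => ‖Xf β a (pt ξ η) - (1 + u) / 2‖ ^ 2) ≤
      κ * (- Real.log (1 - a ^ 2) + (conj u * L a).re) +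
        π⁻¹ * II (Real.log (tau a) + 1) (-1) (fun ξ η => Ω ξ η * MtC M q (Xf β a) ξ η) +
        C₄ * II (Real.log (tau a) + 1) (-1) (fun ξ η => 1 - Ω ξ η) +
        (dc + ε) * (-1 - (Real.log (tau a) + 1)) +
        C * (1 + V * (-1 - (Real.log (tau a) + 1)))

/-- the energy of a target is nonnegative -/
theorem lam_nonneg {u : ℂ} (hu : ‖u‖ = 1) {β L : ℂ → ℂ} {R x : ℝ} (hβ : ExtR β R)
    (hL : IsLog β L) (hx : 0 < x) (hx1 : x ≤ Real.exp (-2)) :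
    0 ≤ - Real.log (1 - Real.exp (-x) ^ 2) + (conj u * L ((Real.exp (-x) : ℝ) : ℂ)).re := by
  have ha1 : Real.exp (-x) < 1 := by
    rw [Real.exp_lt_one_iff]
    linarith
  exact (energy_le hu (g := 1) one_pos hβ hL (Real.exp_pos _) ha1
    (x₁ := Real.log (tau (Real.exp (-x))) + 1) (by linarith) (tau_far' hx hx1) le_rfl).2

/-- the depth of the upper cut -/
theorem exists_A {Cc e ε ε₀ : ℝ} (hCc : 0 ≤ Cc) (he : 0 < e) (hε : 0 < ε) (hε₀ : 0 < ε₀) :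
    ∃ A : ℝ, 8 * Real.exp (-A) ≤ 1 ∧ 184 * Real.exp (-A) ≤ ε₀ ∧
      2 * Cc * Real.exp (-A) ≤ e ∧ 8 * Cc * Real.exp (-A) ≤ ε := by
  have h1 : 0 < min (1 / 8) (min (ε₀ / 184) (min (e / (2 * Cc + 1)) (ε / (8 * Cc + 1)))) := by
    positivity
  refine ⟨-Real.log (min (1 / 8) (min (ε₀ / 184) (min (e / (2 * Cc + 1)) (ε / (8 * Cc + 1))))),
    ?_⟩
  rw [neg_neg, Real.exp_log h1]
  have m1 := min_le_left (1 / 8 : ℝ) (min (ε₀ / 184) (min (e / (2 * Cc + 1)) (ε / (8 * Cc + 1))))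
  have m' := min_le_right (1 / 8 : ℝ) (min (ε₀ / 184) (min (e / (2 * Cc + 1)) (ε / (8 * Cc + 1))))
  have m2 := m'.trans (min_le_left _ _)
  have m'' := m'.trans (min_le_right _ _)
  have m3 := m''.trans (min_le_left _ _)
  have m4 := m''.trans (min_le_right _ _)
  generalize min (1 / 8) (min (ε₀ / 184) (min (e / (2 * Cc + 1)) (ε / (8 * Cc + 1)))) = t at *
  refine ⟨by linarith, ?_, ?_, ?_⟩
  · rw [le_div_iff₀ (by norm_num)] at m2
    linarith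
  · have h2 : 0 < 2 * Cc + 1 := by positivity
    rw [le_div_iff₀ h2] at m3
    nlinarith
  · have h2 : 0 < 8 * Cc + 1 := by positivity
    rw [le_div_iff₀ h2] at m4
    nlinarith

/-- the error of the conversion -/
theorem conv_err {Cc e E E₁ t l lx ε : ℝ} (hCc : 0 ≤ Cc) (ht : 0 ≤ t) (hE : 0 ≤ E) (hl : 0 ≤ l)
    (hlen : l ≤ lx) (hE₁ : E₁ ≤ 2 * E + 2 * (π * l)) (h3 : 2 * Cc * t ≤ e)
    (h4 : 8 * Cc * t ≤ ε) :
    π⁻¹ * (Cc * (1 + t * E₁)) ≤ π⁻¹ * Cc + e * E + ε / 4 * lx := by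
  have hpi := Real.pi_pos
  have hpi3 := Real.pi_gt_three
  have hpii : 0 < π⁻¹ := inv_pos.2 hpi
  have q1 : t * E₁ ≤ t * (2 * E + 2 * (π * l)) := mul_le_mul_of_nonneg_left hE₁ ht
  have q2 : π⁻¹ * (Cc * (1 + t * E₁)) ≤ π⁻¹ * (Cc * (1 + t * (2 * E + 2 * (π * l)))) :=
    mul_le_mul_of_nonneg_left (mul_le_mul_of_nonneg_left (by linarith) hCc) hpii.le
  have q3 : π⁻¹ * (Cc * (1 + t * (2 * E + 2 * (π * l)))) =
      π⁻¹ * Cc + π⁻¹ * ((2 * Cc * t) * E) + 2 * Cc * t * l := by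
    field_simp
    ring
  have q4 : (2 * Cc * t) * E ≤ e * E := mul_le_mul_of_nonneg_right h3 hE
  have hpi1 : π⁻¹ ≤ 1 := inv_le_one_of_one_le₀ (by linarith)
  have q6 : 0 ≤ (2 * Cc * t) * E := by positivity
  have q5 : π⁻¹ * ((2 * Cc * t) * E) ≤ 1 * ((2 * Cc * t) * E) :=
    mul_le_mul_of_nonneg_right hpi1 q6
  have q8 : 0 ≤ 2 * Cc * t := by positivity
  have q7 : 2 * Cc * t * l ≤ ε / 4 * lx :=
    mul_le_mul (by linarith) hlen hl (by linarith)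
  linarith

/-- the error of the area -/
theorem area_err {C₄ ε lx C₂ Ck n S : ℝ} (hC₄ : 0 ≤ C₄) (hε : 0 ≤ ε) (hl : 0 ≤ lx)
    (h : S ≤ ε / (4 * (C₄ + 1)) * lx + C₂ + Ck * (lx - n)) :
    C₄ * S ≤ ε / 4 * lx + C₄ * C₂ + C₄ * Ck * (lx - n) := by
  have k6 := mul_le_mul_of_nonneg_left h hC₄
  have q1 : C₄ * (ε / (4 * (C₄ + 1))) ≤ ε / 4 := by
    rw [mul_div_assoc', div_le_iff₀ (by positivity)]
    nlinarith
  have q2 := mul_le_mul_of_nonneg_right q1 hl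
  have q3 : C₄ * (ε / (4 * (C₄ + 1)) * lx + C₂ + Ck * (lx - n)) =
      C₄ * (ε / (4 * (C₄ + 1))) * lx + C₄ * C₂ + C₄ * Ck * (lx - n) := by ring
  rw [q3] at k6
  linarith

/-- the error of the weight -/
theorem wt_err {C₁ V l lx ε : ℝ} (hC₁ : 0 ≤ C₁) (hV : 0 ≤ V) (hl : l ≤ lx) (h0 : 0 ≤ lx)
    (hCV : C₁ * V ≤ ε / 4) : C₁ * (1 + V * l) ≤ C₁ + ε / 4 * lx := by
  have q1 : C₁ * V * l ≤ C₁ * V * lx := mul_le_mul_of_nonneg_left hl (by positivity)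
  have q2 : C₁ * V * lx ≤ ε / 4 * lx := mul_le_mul_of_nonneg_right hCV h0
  have q3 : C₁ * (1 + V * l) = C₁ + C₁ * V * l := by ring
  linarith

/-- the sum -/
theorem sum_err {K eE KL Mt Mj Ar Dl Wt Pc CC lx dl ε C₄ C₂ Ck n C₁ Cn : ℝ}
    (k1 : K + eE ≤ KL + Mt + Ar + Dl + Wt) (k4 : Mt - Mj ≤ Pc)
    (k5 : Pc ≤ CC + eE + ε / 4 * lx) (k6 : Ar ≤ ε / 4 * lx + C₄ * C₂ + C₄ * Ck * (lx - n))
    (k8 : Dl ≤ (dl + ε / 4) * lx) (k9 : Wt ≤ C₁ + ε / 4 * lx) (k10 : n ≤ lx) (k11 : 0 ≤ Cn) :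
    K ≤ KL + Mj + (Cn + (CC + C₄ * C₂ + C₁)) + (dl + ε) * lx + (C₄ * Ck + 4) * (lx - n) := by
  have q1 : (C₄ * Ck + 4) * (lx - n) = C₄ * Ck * (lx - n) + 4 * (lx - n) := by ring
  rw [q1]
  linarith

/-- **PTC from its parts** -/
theorem pt_ofC {κ dl : ℝ} (hκ : 0 ≤ κ) (hdl : 0 ≤ dl) {u : ℂ} (hu : ‖u‖ = 1)
    {G M M' : ℂ → ℂ} {L Mb Lm ε₀ : ℝ}
    (hG : GLip G L) (hM : MOk M M' Mb Lm ε₀) (hε₀ : 0 < ε₀)
    (hK : KOneStmtC κ dl u G M (Pool.Agent.Helper97.CKC.tau κ dl u)) :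
    PTC κ dl u G (Mh M') := by
  obtain ⟨e, C₄, V₀, a₀, he, hC₄, hV₀, ha₀, hK⟩ := hK
  obtain ⟨Cc, hCc, hconv⟩ := Pool.Agent.Helper69.CK.convC hM (Pool.Agent.Helper97.CKC.tau κ dl u)
  obtain ⟨Ck, hCk, hcut⟩ := Pool.Agent.Helper73.CK.cut
  obtain ⟨Cr, hCr, hcr⟩ := crude hG
  have hpi := Real.pi_pos
  have hpi3 := Real.pi_gt_three
  have hpii : 0 < π⁻¹ := inv_pos.2 hpi
  refine ⟨C₄ * Ck + 4, by positivity, ?_⟩
  intro ε hε
  obtain ⟨C₁, hC₁, hK⟩ := hK (ε / 4) (by positivity)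
  obtain ⟨V, hV⟩ : ∃ V, V = min V₀ (ε / (4 * (C₁ + 1))) := ⟨_, rfl⟩
  have hVpos : 0 < V := by
    rw [hV]
    exact lt_min hV₀ (by positivity)
  have hVV : V ≤ V₀ := by rw [hV]; exact min_le_left _ _
  have hCV : C₁ * V ≤ ε / 4 := by
    have h1 : V ≤ ε / (4 * (C₁ + 1)) := by rw [hV]; exact min_le_right _ _
    have h2 : V * (4 * (C₁ + 1)) ≤ ε := by
      rwa [le_div_iff₀ (by positivity)] at h1
    nlinarith
  obtain ⟨A, hA1, hA2, hA3, hA4⟩ := exists_A hCc he hε hε₀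
  obtain ⟨s, C₂, n₀, hs, hs1, hC₂, hcut⟩ := hcut V (ε / (4 * (C₄ + 1))) A hVpos (by positivity)
  -- the first depth
  obtain ⟨n₁, hn₁⟩ : ∃ n₁ : ℝ, ∀ x : ℝ, x ≤ Real.exp (-n₁) → a₀ < Real.exp (-x) := by
    refine ⟨-Real.log (1 - a₀) + 1, ?_⟩
    intro x hx
    have h1 : Real.exp (-(-Real.log (1 - a₀) + 1)) = (1 - a₀) * Real.exp (-1) := by
      rw [neg_add, neg_neg, Real.exp_add, Real.exp_log (by linarith)]
    rw [h1] at hx
    have h2 : Real.exp (-1) < 1 := by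
      rw [Real.exp_lt_one_iff]
      norm_num
    have h3 := Real.add_one_le_exp (-x)
    nlinarith
  obtain ⟨n₂, hn₂⟩ : ∃ n₂, n₂ = max n₀ n₁ := ⟨_, rfl⟩
  refine ⟨s, (Cr + 4 * |n₂|) + (π⁻¹ * Cc + C₄ * C₂ + C₁), hs, hs1, by positivity, ?_⟩
  intro n hn
  by_cases hnn : n₂ ≤ n
  · obtain ⟨W0, hW0, hcut⟩ := hcut n ((le_max_left _ _).trans (hn₂ ▸ hnn))
    refine ⟨W0, hW0, ?_⟩
    intro β Lg R hβ hLg x θ hx hxn hθ
    obtain ⟨⟨W₁, W₂, hWt⟩, hsupp, harea⟩ := hcut x θ hx hxn hθ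
    have hx2 : x ≤ Real.exp (-2) := hxn.trans (Real.exp_le_exp.2 (by linarith))
    have hx4 : x ≤ 1 / 4 := hx2.trans exp_m2
    have ha1 : Real.exp (-x) < 1 := by
      rw [Real.exp_lt_one_iff]
      linarith
    have ha0 : a₀ < Real.exp (-x) := hn₁ x (hxn.trans (Real.exp_le_exp.2 (by
      have := (le_max_right n₀ n₁).trans (hn₂ ▸ hnn)
      linarith)))
    have hfar := tau_far' hx hx2
    have hlen := len_le hx (by linarith : x ≤ 1)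
    have hβ' := Pool.Agent.Helper9.EK.rot_ExtR hβ θ
    have k1 := hK (rotβ β θ) _ R (Real.exp (-x)) V _ W₁ W₂ hβ' (hLg.rot θ) ha0 ha1 hVpos.le hVV hWt
    have k2 := hconv (rotβ β θ) R (Real.exp (-x)) A (Real.log (tau (Real.exp (-x))) + 1)
      (fun z => W0 (Complex.exp (θ * I) * z)) hβ' (Real.exp_pos _) ha1 (by linarith) hfar hA1 hA2
      (hW0.cont.comp (continuous_const.mul continuous_id)) (fun z => hW0.nn _)
      (fun z => hW0.le1 _) hsupp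
    rw [Real.log_exp, ← Pool.Agent.Helper9.EK.rot_Kf'] at k1
    have e1 : Lg (Complex.exp (θ * I) * ((Real.exp (-x) : ℝ) : ℂ)) = Lg (ep (-x) θ) := by
      rw [Pool.Agent.Helper69.CK.ep_eq]
    have e2 : Real.exp (-x) ^ 2 = Real.exp (-2 * x) := by
      rw [← Real.exp_nat_mul]
      congr 1
      push_cast
      ring
    rw [e1, e2] at k1
    have e3 := Pool.Agent.Helper69.CK.MC_rot κ dl u W0 M' β x θ
    have hX : NiceX (Xf (rotβ β θ) (Real.exp (-x))) (Real.log (tau (Real.exp (-x))) + 1) (-1) :=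
      Pool.Agent.Helper67.EK.E1c hβ' (Real.exp_pos _) ha1 (by linarith) (by norm_num)
    have e4 := around_one hu hfar hX
    set E := II (Real.log (tau (Real.exp (-x))) + 1) (-1)
      (fun ξ η => ‖Xf (rotβ β θ) (Real.exp (-x)) (pt ξ η) - (1 + u) / 2‖ ^ 2) with hE
    set E₁ := II (Real.log (tau (Real.exp (-x))) + 1) (-1)
      (fun ξ η => ‖Xf (rotβ β θ) (Real.exp (-x)) (pt ξ η) - 1‖ ^ 2) with hE₁
    set J := ∫ z : ℂ, W0 (Complex.exp (θ * I) * z) * (Mh M' (rotβ β θ) z *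
      (kA (rotβ β θ) ((Real.exp (-x) : ℝ) : ℂ) z -
        Pool.Agent.Helper97.CKC.tau κ dl u * omp 0 z ^ 2)).re with hJ
    have hE0 : 0 ≤ E := Pool.Agent.Helper83.EK.II_nonneg hfar (fun ξ η => by positivity)
    have hl0 : 0 ≤ -Real.log x := by
      rw [neg_nonneg]
      exact Real.log_nonpos hx.le (by linarith)
    have hl : 0 ≤ -1 - (Real.log (tau (Real.exp (-x))) + 1) := by linarith
    have k3 := (abs_le.mp k2).2
    have k4 := mul_le_mul_of_nonneg_left k3 hpii.le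
    rw [mul_sub] at k4
    rw [e3]
    have hln : n ≤ -Real.log x := by
      have := Real.log_le_log hx hxn
      rw [Real.log_exp] at this
      linarith
    have k5 := conv_err (e := e) (ε := ε) hCc (Real.exp_pos (-A)).le hE0 hl hlen e4 hA3 hA4
    have k6 := area_err hC₄ hε.le hl0 harea
    have k8 : (dl + ε / 4) * (-1 - (Real.log (tau (Real.exp (-x))) + 1)) ≤
        (dl + ε / 4) * (-Real.log x) :=
      mul_le_mul_of_nonneg_left hlen (by positivity)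
    have k9 := wt_err hC₁ hVpos.le hlen hl0 hCV
    have k11 : 0 ≤ Cr + 4 * |n₂| := by positivity
    exact sum_err k1 k4 k5 k6 k8 k9 hln k11
  · push Not at hnn
    refine ⟨fun _ => 0, ⟨continuous_const, fun _ => le_rfl, fun _ => zero_le_one,
      fun z h => absurd rfl h⟩, ?_⟩
    intro β Lg R hβ hLg x θ hx hxn _
    have hx2 : x ≤ Real.exp (-2) := hxn.trans (Real.exp_le_exp.2 (by linarith))
    have hx4 : x ≤ 1 / 4 := hx2.trans exp_m2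
    have hβ' := Pool.Agent.Helper9.EK.rot_ExtR hβ θ
    have k1 := hcr (rotβ β θ) R x hβ' hx hx2
    rw [← Pool.Agent.Helper9.EK.rot_Kf'] at k1
    have k2 := lam_nonneg hu hβ' (hLg.rot θ) hx hx2
    have e1 : Lg (Complex.exp (θ * I) * ((Real.exp (-x) : ℝ) : ℂ)) = Lg (ep (-x) θ) := by
      rw [Pool.Agent.Helper69.CK.ep_eq]
    have e2 : Real.exp (-x) ^ 2 = Real.exp (-2 * x) := by
      rw [← Real.exp_nat_mul]
      congr 1
      push_cast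
      ring
    rw [e1, e2] at k2
    have k3 : MC κ dl u (fun _ => 0) (Mh M' β) β x θ = 0 := by
      unfold MC
      simp
    have k4 := mul_nonneg hκ k2
    have hl0 : 0 ≤ -Real.log x := by
      rw [neg_nonneg]
      exact Real.log_nonpos hx.le (by linarith)
    have k5 : 0 ≤ (dl + ε) * (-Real.log x) := by positivity
    have hln : n ≤ -Real.log x := by
      have := Real.log_le_log hx hxn
      rw [Real.log_exp] at this
      linarith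
    have k6 : 0 ≤ C₄ * Ck * (-Real.log x - n) := mul_nonneg (by positivity) (by linarith)
    have k7 : 0 ≤ π⁻¹ * Cc + C₄ * C₂ + C₁ := by positivity
    have k8 : 4 * n ≤ 4 * |n₂| := by
      have := le_abs_self n₂
      linarith
    rw [k3]
    have k9 : (C₄ * Ck + 4) * (-Real.log x - n) =
        C₄ * Ck * (-Real.log x - n) + 4 * (-Real.log x) - 4 * n := by ring
    rw [k9]
    linarith

/-- **PTC from a pointwise certificate** -/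
theorem pt_C {k₂ lam dl κ L₀ B Mb Lm ε₀ : ℝ} {u : ℂ} (hu : ‖u‖ = 1) (line : LineC u)
    (hB : 0 ≤ B) (hlam : 0 ≤ lam) (hk₂ : lam ≤ k₂) (hdl : 0 ≤ dl) (hκ : k₂ < 2 * κ)
    {G M M' : ℂ → ℂ} (hG : GLip G L₀) (hM : MOk M M' Mb Lm ε₀) (hε₀ : 0 < ε₀)
    {Nl : (ℂ → ℂ) → ℝ → ℝ → ℝ} (hN : IsNullC DiscF Nl)
    (hp : ∀ (X : ℂ → ℂ) (x₁ x₂ : ℝ), NiceX X x₁ x₂ → ∀ ξ ∈ Icc x₁ x₂,
      ∀ η ∈ Icc (0:ℝ) π, Real.sin η * ‖X (pt ξ η)‖ ≤ 9 →
      Real.sin η * ‖deriv X (pt ξ η) / X (pt ξ η)‖ ≤ 38 → ∃ l₀ l₁ l₂ : ℝ,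
      0 ≤ l₀ ∧ l₀ ≤ B ∧ 0 ≤ l₁ ∧ l₁ ≤ B ∧ 0 ≤ l₂ ∧ l₂ ≤ B ∧
      Pool.Agent.Helper69.EK7.T2 (fun m _ => G m) X ξ η +
        l₀ * (1 - (Real.sin η * ‖X (pt ξ η)‖) ^ 2) +
        l₁ * (16 - ‖Pool.Agent.Helper69.EK3.dA 1 (X (pt ξ η)) (deriv X (pt ξ η)) (Real.sin η)
          (Real.cos η)‖ ^ 2) +
        l₂ * (16 - ‖Pool.Agent.Helper69.EK3.dA (-1) (X (pt ξ η)) (deriv X (pt ξ η)) (Real.sin η)
          (Real.cos η)‖ ^ 2) ≤
      k₂ * fu u (X (pt ξ η)) + lam * (‖X (pt ξ η)‖ ^ 2 - (X (pt ξ η)).re) + dl +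
        Nl X ξ η + MtC M (Pool.Agent.Helper97.CKC.tau κ dl u) X ξ η) :
    PTC κ dl u G (Mh M') :=
  pt_ofC (by linarith) hdl hu hG hM hε₀
    (K_oneC_d hu line hB hlam hk₂ hdl hκ (Pool.Agent.Helper84.CK.GLip.two hG) hM.cont hN hp)

end Pool.Agent.Helper69.CKC
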