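import Pool.Agent.Helper69.CKC.PotC
set_option autoImplicit false
open Complex MeasureTheory Metric Set
open scoped Real ComplexConjugate

/-!
# Project CKC: analytic terms `β(η) Re F(X)`, `∫ β = 0`, in the full strip
-/

namespace Pool.Agent.Helper69.CKC

open Pool.Agent.Helper52.EK Pool.Agent.Helper69.EK3 Pool.Agent.Helper69.EK7
open Pool.Agent.Helper84.CK

variable {P : (ℂ → ℂ) → ℝ → ℝ → Prop}

/-- the primitive of a function with zero mean vanishes on the sides -/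
theorem prim_bound {β : ℝ → ℝ} (hβ : Continuous β) (hβ0 : ∫ η in (0:ℝ)..π, β η = 0) :
    ∃ K : ℝ, 0 ≤ K ∧ ∀ η ∈ Icc (0:ℝ) π, |∫ t in (0:ℝ)..η, β t| ≤ K * Real.sin η := by
  have hpi := Real.pi_pos
  obtain ⟨M, hM⟩ := (isCompact_Icc (a := (0:ℝ)) (b := π)).exists_bound_of_continuousOn
    hβ.continuousOn
  have hM0 : 0 ≤ M := (norm_nonneg _).trans (hM 0 ⟨le_rfl, hpi.le⟩)
  have hint : ∀ a b : ℝ, IntervalIntegrable β volume a b := fun a b => hβ.intervalIntegrable a b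
  refine ⟨M * (π / 2), by positivity, ?_⟩
  intro η hη
  by_cases h : η ≤ π / 2
  · have h1 : ‖∫ t in (0:ℝ)..η, β t‖ ≤ M * |η - 0| := by
      refine intervalIntegral.norm_integral_le_of_norm_le_const fun t ht => hM t ?_
      rw [uIoc_of_le hη.1] at ht
      exact ⟨ht.1.le, ht.2.trans hη.2⟩
    rw [Real.norm_eq_abs, sub_zero, abs_of_nonneg hη.1] at h1
    have h2 := Real.mul_le_sin hη.1 h
    have h3 : η ≤ π / 2 * Real.sin η := by
      have := mul_le_mul_of_nonneg_left h2 (by positivity : 0 ≤ π / 2)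
      have e : π / 2 * (2 / π * η) = η := by field_simp
      rwa [e] at this
    have := mul_le_mul_of_nonneg_left h3 hM0
    linarith
  · push Not at h
    have e0 : ∫ t in (0:ℝ)..η, β t = - ∫ t in η..π, β t := by
      have := intervalIntegral.integral_add_adjacent_intervals (hint 0 η) (hint η π)
      linarith
    have h1 : ‖∫ t in η..π, β t‖ ≤ M * |π - η| := by
      refine intervalIntegral.norm_integral_le_of_norm_le_const fun t ht => hM t ?_
      rw [uIoc_of_le hη.2] at ht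
      exact ⟨hη.1.trans ht.1.le, ht.2⟩
    rw [Real.norm_eq_abs, abs_of_nonneg (by linarith [hη.2] : 0 ≤ π - η)] at h1
    have h2 := Real.mul_le_sin (by linarith [hη.2] : 0 ≤ π - η) (by linarith)
    rw [Real.sin_pi_sub] at h2
    have h3 : π - η ≤ π / 2 * Real.sin η := by
      have := mul_le_mul_of_nonneg_left h2 (by positivity : 0 ≤ π / 2)
      have e : π / 2 * (2 / π * (π - η)) = π - η := by field_simp
      rwa [e] at this
    rw [e0, abs_neg]
    have := mul_le_mul_of_nonneg_left h3 hM0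
    linarith

/-- **analytic terms** -/
theorem isNullC_F {F F₁ : ℂ → ℂ} (hF : ∀ z, HasDerivAt F (F₁ z) z) (hF₁ : Continuous F₁)
    {β : ℝ → ℝ} (hβ : Continuous β) (hβ0 : ∫ η in (0:ℝ)..π, β η = 0) {C : ℝ}
    (hC : ∀ z, ‖F z‖ ≤ C * (1 + ‖z - 1‖ ^ 2)) :
    IsNullC P (fun X _ξ η => β η * (F (X (pt _ξ η))).re) := by
  obtain ⟨K, hK, hKb⟩ := prim_bound hβ hβ0
  have hFc : Continuous F := continuous_iff_continuousAt.2 fun z => (hF z).continuousAt
  have hb : ∀ η : ℝ, HasDerivAt (fun η => ∫ t in (0:ℝ)..η, β t) (β η) η := fun η =>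
    intervalIntegral.integral_hasDerivAt_right (hβ.intervalIntegrable _ _)
      (hβ.stronglyMeasurableAtFilter _ _) hβ.continuousAt
  set b : ℝ → ℝ := fun η => ∫ t in (0:ℝ)..η, β t with hbd
  have cb : Continuous b := continuous_iff_continuousAt.2 fun t => (hb t).continuousAt
  have b0 : b 0 = 0 := by simp [hbd]
  have bpi : b π = 0 := hβ0
  have hC0 : 0 ≤ C := by
    have h1 := hC 1
    have h2 := norm_nonneg (F 1)
    simp only [sub_self, norm_zero] at h1
    nlinarith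
  have cX : ∀ (X : ℂ → ℂ) (x₁ x₂ : ℝ), NiceX X x₁ x₂ →
      ContinuousOn (fun p : ℝ × ℝ => X (pt p.1 p.2)) (Icc x₁ x₂ ×ˢ Icc 0 π) :=
    fun X x₁ x₂ hX => contF hX.an.continuousOn
  have cD : ∀ (X : ℂ → ℂ) (x₁ x₂ : ℝ), NiceX X x₁ x₂ →
      ContinuousOn (fun p : ℝ × ℝ => deriv X (pt p.1 p.2)) (Icc x₁ x₂ ×ˢ Icc 0 π) :=
    fun X x₁ x₂ hX => contF hX.an.deriv.continuousOn
  have cbp : ∀ x₁ x₂ : ℝ, ContinuousOn (fun p : ℝ × ℝ => b p.2) (Icc x₁ x₂ ×ˢ Icc 0 π) :=
    fun _ _ => (cb.comp continuous_snd).continuousOn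
  have cβp : ∀ x₁ x₂ : ℝ, ContinuousOn (fun p : ℝ × ℝ => β p.2) (Icc x₁ x₂ ×ˢ Icc 0 π) :=
    fun _ _ => (hβ.comp continuous_snd).continuousOn
  have bnd : ∀ (X : ℂ → ℂ) (ξ η : ℝ) (t : ℝ), |t| ≤ ‖F (X (pt ξ η))‖ → η ∈ Icc (0:ℝ) π →
      |b η * t| ≤ K * C * Real.sin η * (1 + ‖X (pt ξ η) - 1‖ ^ 2) := by
    intro X ξ η t ht hη
    rw [abs_mul]
    have h1 := hKb η hη
    have h2 := ht.trans (hC _)
    have h3 := mul_le_mul h1 h2 (abs_nonneg _) (mul_nonneg hK (sin_nn' hη))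
    linarith
  have N1 := isNullC_eta (P := P) (F := fun X ξ η => b η * (F (X (pt ξ η))).re)
    (F₂ := fun X ξ η => β η * (F (X (pt ξ η))).re -
      b η * (F₁ (X (pt ξ η)) * deriv X (pt ξ η)).im) (C := K * C)
    (fun X x₁ x₂ hX => (cbp x₁ x₂).mul
      (Complex.continuous_re.comp_continuousOn (hFc.comp_continuousOn (cX X x₁ x₂ hX))))
    (fun X x₁ x₂ hX => ((cβp x₁ x₂).mul
      (Complex.continuous_re.comp_continuousOn (hFc.comp_continuousOn (cX X x₁ x₂ hX)))).sub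
      ((cbp x₁ x₂).mul (Complex.continuous_im.comp_continuousOn
        ((hF₁.comp_continuousOn (cX X x₁ x₂ hX)).mul (cD X x₁ x₂ hX)))))
    (by
      intro X x₁ x₂ hX ξ hξ η hη
      have hm := pt_mem hξ hη
      have dX := d_eta (hX.an _ hm).differentiableAt
      have dF := (hF (X (pt ξ η))).comp η dX
      have hd := (hb η).mul (d_re dF)
      refine hd.congr_deriv ?_
      have e : (F₁ (X (pt ξ η)) * (I * deriv X (pt ξ η))).re =
          -(F₁ (X (pt ξ η)) * deriv X (pt ξ η)).im := by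
        rw [← mul_assoc, mul_comm (F₁ _) I, mul_assoc, Complex.I_mul_re]
      simp only [Function.comp_apply, e]
      ring)
    (fun X ξ => by
      simp only [b0, zero_mul])
    (fun X ξ => by
      simp only [bpi, zero_mul])
    (fun X x₁ x₂ hx hX hP ξ hξ η hη => bnd X ξ η _ (abs_re_le_norm _) hη)
  have N2 := isNullC_xi (P := P) (F := fun X ξ η => b η * (F (X (pt ξ η))).im)
    (F₁ := fun X ξ η => b η * (F₁ (X (pt ξ η)) * deriv X (pt ξ η)).im) (C := K * C)
    (fun X x₁ x₂ hX => (cbp x₁ x₂).mul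
      (Complex.continuous_im.comp_continuousOn (hFc.comp_continuousOn (cX X x₁ x₂ hX))))
    (fun X x₁ x₂ hX => (cbp x₁ x₂).mul (Complex.continuous_im.comp_continuousOn
        ((hF₁.comp_continuousOn (cX X x₁ x₂ hX)).mul (cD X x₁ x₂ hX))))
    (by
      intro X x₁ x₂ hX ξ hξ η hη
      have hm := pt_mem hξ hη
      have dX := d_xi (hX.an _ hm).differentiableAt
      have dF := (hF (X (pt ξ η))).comp ξ dX
      exact (d_im dF).const_mul (b η))
    (fun X x₁ x₂ hx hX hP ξ hξ η hη => bnd X ξ η _ (abs_im_le_norm _) hη)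
  exact (N1.add N2).congr fun X ξ η => by ring

/-- **the terms `β(η) Re (c (X - α)ⁿ)`**, `n ≤ 2` -/
theorem isNullC_Hm (c α : ℂ) {n : ℕ} (hn : n ≤ 2) {β : ℝ → ℝ} (hβ : Continuous β)
    (hβ0 : ∫ η in (0:ℝ)..π, β η = 0) :
    IsNullC P (fun X _ξ η => β η * (c * (X (pt _ξ η) - α) ^ n).re) := by
  refine isNullC_F (F := fun z => c * (z - α) ^ n) (F₁ := fun z => c * (n * (z - α) ^ (n - 1) * 1))
    (C := ‖c‖ * (3 + 2 * ‖1 - α‖ ^ 2)) ?_ (by fun_prop) hβ hβ0 ?_
  · intro z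
    exact (((hasDerivAt_id z).sub_const α).pow n).const_mul c
  · intro z
    rw [norm_mul, norm_pow, mul_assoc]
    refine mul_le_mul_of_nonneg_left ?_ (norm_nonneg c)
    have h1 : ‖z - α‖ ≤ ‖z - 1‖ + ‖1 - α‖ := by
      have := norm_add_le (z - 1) (1 - α)
      rwa [sub_add_sub_cancel] at this
    have h2 := norm_nonneg (z - α)
    have h3 := norm_nonneg (z - 1)
    have h4 := norm_nonneg (1 - α)
    generalize ‖z - α‖ = x at *
    generalize ‖z - 1‖ = y at *
    generalize ‖1 - α‖ = w at *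
    have h5 : x ^ 2 ≤ 2 * y ^ 2 + 2 * w ^ 2 := by nlinarith [sq_nonneg (y - w)]
    have h6 : x ≤ 1 + x ^ 2 := by nlinarith [sq_nonneg (x - 1)]
    have h7 : 0 ≤ w ^ 2 * y ^ 2 := by positivity
    interval_cases n
    · simp only [pow_zero]
      nlinarith [sq_nonneg y, sq_nonneg w]
    · simp only [pow_one]
      nlinarith [sq_nonneg y, sq_nonneg w]
    · nlinarith [sq_nonneg y, sq_nonneg w]

end Pool.Agent.Helper69.CKC
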