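import Pool.Agent.Helper69.CKC.NullC
import Pool.Agent.Helper69.EK7.Grp
set_option autoImplicit false
open Complex MeasureTheory Metric Set
open scoped Real ComplexConjugate

/-!
# Project CKC: null Lagrangians of fields `a(η) H(X) f conj h` in the full strip
-/

namespace Pool.Agent.Helper69.CKC

open Pool.Agent.Helper52.EK Pool.Agent.Helper69.EK3 Pool.Agent.Helper69.EK7
open Pool.Agent.Helper84.CK

variable {P : (ℂ → ℂ) → ℝ → ℝ → Prop}

/-- analytic functionals of `X` near the full strip -/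
def AnS (f : (ℂ → ℂ) → ℂ → ℂ) : Prop :=
  ∀ (X : ℂ → ℂ) (x₁ x₂ : ℝ), NiceX X x₁ x₂ → AnalyticOnNhd ℂ (f X) (Rect x₁ x₂)

theorem anS_one : AnS (fun _ _ => 1) := fun _ _ _ _ _ _ => analyticAt_const

theorem anS_q : AnS qF := fun _ _ _ hX => hX.an.deriv.div hX.an hX.ne

theorem anS_r : AnS qR := fun _ _ _ hX =>
  (hX.an.deriv.deriv.div hX.an hX.ne).sub ((hX.an.deriv.div hX.an hX.ne).pow 2)

theorem anS_f (j e : ℕ) : AnS (fG j e) := fun X x₁ x₂ hX =>
  ((anS_q X x₁ x₂ hX).pow j).mul ((anS_r X x₁ x₂ hX).pow e)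

theorem anS_h (n : ℕ) : AnS (hG n) := fun X x₁ x₂ hX => (anS_q X x₁ x₂ hX).pow n

theorem isNullC_A {H Hx Hy : ℂ → ℂ} (hH : C1c H Hx Hy) {f h : (ℂ → ℂ) → ℂ → ℂ} (hf : AnS f)
    (hh : AnS h) {a a₁ : ℝ → ℝ} (g1 : ∀ η, HasDerivAt a (a₁ η) η) (g1c : Continuous a₁)
    (f1 : a 0 = 0) (f2 : a π = 0) {C : ℝ}
    (hC : ∀ (X : ℂ → ℂ) (x₁ x₂ : ℝ), x₁ ≤ x₂ → NiceX X x₁ x₂ → P X x₁ x₂ →
      ∀ ξ ∈ Icc x₁ x₂, ∀ η ∈ Icc (0:ℝ) π,
        ‖FA a H f h X ξ η‖ ≤ C * Real.sin η * (1 + ‖X (pt ξ η) - 1‖ ^ 2)) :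
    IsNullC P (NF a a₁ H Hx Hy f h) := by
  have ca : Continuous a := continuous_iff_continuousAt.2 fun t => (g1 t).continuousAt
  -- continuity
  have cX : ∀ (X : ℂ → ℂ) (x₁ x₂ : ℝ), NiceX X x₁ x₂ →
      ContinuousOn (fun p : ℝ × ℝ => X (pt p.1 p.2)) (Icc x₁ x₂ ×ˢ Icc 0 π) :=
    fun X x₁ x₂ hX => contF hX.an.continuousOn
  have mX : ∀ (X : ℂ → ℂ) (x₁ x₂ : ℝ), NiceX X x₁ x₂ →
      MapsTo (fun p : ℝ × ℝ => X (pt p.1 p.2)) (Icc x₁ x₂ ×ˢ Icc 0 π) {X | X ≠ 0} :=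
    fun X x₁ x₂ hX p hp => hX.ne _ (pt_mem hp.1 hp.2)
  have i2 : ∀ x₁ x₂ : ℝ, ContinuousOn (fun p : ℝ × ℝ => ((a p.2 : ℝ) : ℂ))
      (Icc x₁ x₂ ×ˢ Icc 0 π) := fun _ _ =>
    (Complex.continuous_ofReal.comp (ca.comp continuous_snd)).continuousOn
  have i3 : ∀ x₁ x₂ : ℝ, ContinuousOn (fun p : ℝ × ℝ => ((a₁ p.2 : ℝ) : ℂ))
      (Icc x₁ x₂ ×ˢ Icc 0 π) := fun _ _ =>
    (Complex.continuous_ofReal.comp (g1c.comp continuous_snd)).continuousOn
  have cFA : ∀ (X : ℂ → ℂ) (x₁ x₂ : ℝ), NiceX X x₁ x₂ →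
      ContinuousOn (fun p : ℝ × ℝ => FA a H f h X p.1 p.2) (Icc x₁ x₂ ×ˢ Icc 0 π) := by
    intro X x₁ x₂ hX
    unfold FA
    exact (((i2 x₁ x₂).mul (hH.cont.comp (cX X x₁ x₂ hX) (mX X x₁ x₂ hX))).mul
      (contF (hf X x₁ x₂ hX).continuousOn)).mul
      (Complex.continuous_conj.comp_continuousOn (contF (hh X x₁ x₂ hX).continuousOn))
  have cFA1 : ∀ (X : ℂ → ℂ) (x₁ x₂ : ℝ), NiceX X x₁ x₂ →
      ContinuousOn (fun p : ℝ × ℝ => FA1 a H Hx Hy f h X p.1 p.2)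
        (Icc x₁ x₂ ×ˢ Icc 0 π) := by
    intro X x₁ x₂ hX
    have cY := contF hX.an.deriv.continuousOn
    have cf := contF (hf X x₁ x₂ hX).continuousOn
    have cf1 := contF (hf X x₁ x₂ hX).deriv.continuousOn
    have ch := Complex.continuous_conj.comp_continuousOn (contF (hh X x₁ x₂ hX).continuousOn)
    have ch1 := Complex.continuous_conj.comp_continuousOn
      (contF (hh X x₁ x₂ hX).deriv.continuousOn)
    have c0 := hH.cont.comp (cX X x₁ x₂ hX) (mX X x₁ x₂ hX)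
    have cx := hH.cx.comp (cX X x₁ x₂ hX) (mX X x₁ x₂ hX)
    have cy := hH.cy.comp (cX X x₁ x₂ hX) (mX X x₁ x₂ hX)
    have yr := (Complex.continuous_ofReal.comp Complex.continuous_re).comp_continuousOn cY
    have yi := (Complex.continuous_ofReal.comp Complex.continuous_im).comp_continuousOn cY
    unfold FA1
    exact (i2 x₁ x₂).mul ((((((cx.mul yr).add (cy.mul yi)).mul cf).add (c0.mul cf1)).mul
      ch).add ((c0.mul cf).mul ch1))
  have cFA2 : ∀ (X : ℂ → ℂ) (x₁ x₂ : ℝ), NiceX X x₁ x₂ →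
      ContinuousOn (fun p : ℝ × ℝ => FA2 a a₁ H Hx Hy f h X p.1 p.2)
        (Icc x₁ x₂ ×ˢ Icc 0 π) := by
    intro X x₁ x₂ hX
    have cY : ContinuousOn (fun p : ℝ × ℝ => I * deriv X (pt p.1 p.2))
        (Icc x₁ x₂ ×ˢ Icc 0 π) := continuousOn_const.mul (contF hX.an.deriv.continuousOn)
    have cf := contF (hf X x₁ x₂ hX).continuousOn
    have cf1 : ContinuousOn (fun p : ℝ × ℝ => I * deriv (f X) (pt p.1 p.2))
        (Icc x₁ x₂ ×ˢ Icc 0 π) :=
      continuousOn_const.mul (contF (hf X x₁ x₂ hX).deriv.continuousOn)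
    have ch := Complex.continuous_conj.comp_continuousOn (contF (hh X x₁ x₂ hX).continuousOn)
    have ch1' : ContinuousOn (fun p : ℝ × ℝ => I * deriv (h X) (pt p.1 p.2))
        (Icc x₁ x₂ ×ˢ Icc 0 π) :=
      continuousOn_const.mul (contF (hh X x₁ x₂ hX).deriv.continuousOn)
    have ch1 := Complex.continuous_conj.comp_continuousOn ch1'
    have c0 := hH.cont.comp (cX X x₁ x₂ hX) (mX X x₁ x₂ hX)
    have cx := hH.cx.comp (cX X x₁ x₂ hX) (mX X x₁ x₂ hX)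
    have cy := hH.cy.comp (cX X x₁ x₂ hX) (mX X x₁ x₂ hX)
    have yr := (Complex.continuous_ofReal.comp Complex.continuous_re).comp_continuousOn cY
    have yi := (Complex.continuous_ofReal.comp Complex.continuous_im).comp_continuousOn cY
    unfold FA2
    exact ((i3 x₁ x₂).mul ((c0.mul cf).mul ch)).add ((i2 x₁ x₂).mul
      ((((((cx.mul yr).add (cy.mul yi)).mul cf).add (c0.mul cf1)).mul ch).add
      ((c0.mul cf).mul ch1)))
  -- the direction of `ξ`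
  have N1 := isNullC_xi (P := P) (F := fun X ξ η => (FA a H f h X ξ η).re)
    (F₁ := fun X ξ η => (FA1 a H Hx Hy f h X ξ η).re)
    (fun X x₁ x₂ hX => Complex.continuous_re.comp_continuousOn (cFA X x₁ x₂ hX))
    (fun X x₁ x₂ hX => Complex.continuous_re.comp_continuousOn (cFA1 X x₁ x₂ hX))
    (by
      intro X x₁ x₂ hX ξ hξ η hη
      have hm := pt_mem hξ hη
      have dX := d_xi (hX.an _ hm).differentiableAt
      have df := d_xi (hf X x₁ x₂ hX _ hm).differentiableAt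
      have dh := d_xi (hh X x₁ x₂ hX _ hm).differentiableAt
      have dH := d_H hH (g := fun ξ => X (pt ξ η)) (t := ξ) (hX.ne _ hm) dX
      have hd := d_re ((((hasDerivAt_const ξ ((a η : ℝ) : ℂ)).mul dH).mul df).mul (d_conj dh))
      refine (hd.congr_deriv ?_)
      congr 1
      simp only [Pi.mul_apply]
      unfold FA1
      ring)
    (fun X x₁ x₂ hx hX hP ξ hξ η hη =>
      (abs_re_le_norm _).trans (hC X x₁ x₂ hx hX hP ξ hξ η hη))
  -- the direction of `η`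
  have N2 := isNullC_eta (P := P) (F := fun X ξ η => (FA a H f h X ξ η).im)
    (F₂ := fun X ξ η => (FA2 a a₁ H Hx Hy f h X ξ η).im)
    (fun X x₁ x₂ hX => Complex.continuous_im.comp_continuousOn (cFA X x₁ x₂ hX))
    (fun X x₁ x₂ hX => Complex.continuous_im.comp_continuousOn (cFA2 X x₁ x₂ hX))
    (by
      intro X x₁ x₂ hX ξ hξ η hη
      have hm := pt_mem hξ hη
      have dX := d_eta (hX.an _ hm).differentiableAt
      have df := d_eta (hf X x₁ x₂ hX _ hm).differentiableAt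
      have dh := d_eta (hh X x₁ x₂ hX _ hm).differentiableAt
      have dH := d_H hH (g := fun η => X (pt ξ η)) (t := η) (hX.ne _ hm) dX
      have hd := d_im ((((g1 η).ofReal_comp.mul dH).mul df).mul (d_conj dh))
      refine (hd.congr_deriv ?_)
      congr 1
      simp only [Pi.mul_apply]
      unfold FA2
      ring)
    (fun X ξ => by
      unfold FA
      rw [f1]
      simp)
    (fun X ξ => by
      unfold FA
      rw [f2]
      simp)
    (fun X x₁ x₂ hx hX hP ξ hξ η hη =>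
      (abs_im_le_norm _).trans (hC X x₁ x₂ hx hX hP ξ hξ η hη))
  exact (N1.add (N2.const_mul (-1))).congr fun X ξ η => FA_sum a a₁ H Hx Hy f h X ξ η

end Pool.Agent.Helper69.CKC
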