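import Pool.Agent.Helper69.CKC.PTC
import Pool.Agent.Helper69.CK.GrowE
set_option autoImplicit false
open Complex MeasureTheory Metric Set
open scoped Real ComplexConjugate

/-!
# Project CKC: the bound for one target, multipliers of the discs with quadratic growth
-/

namespace Pool.Agent.Helper69.CKC

open Pool.Agent.Helper39.Area Pool.Agent.Helper52.EK Pool.Agent.Helper69.EK3
open Pool.Agent.Helper69.EK7 Pool.Agent.Helper84.CK Pool.Agent.Helper68.EKC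
open Pool.Agent.Helper69.CK

/-- the error of the discs, centre `z₀` -/
theorem grow_err_u {B ε : ℝ} (hB : 0 ≤ B) (hε : 0 < ε) {z₀ : ℂ} (hz : ‖z₀‖ ≤ 1) :
    ∃ K : ℝ, 0 ≤ K ∧
    ∀ (X : ℂ) (s d A₁ A₂ l₀ l₁ l₂ : ℝ), 0 ≤ s → s ≤ 1 → 0 ≤ d → d ≤ 8 →
      s * ‖X‖ ≤ 1 + d * s → 0 ≤ A₁ → A₁ ≤ 4 * (1 + d * s) → 0 ≤ A₂ → A₂ ≤ 4 * (1 + d * s) →
      0 ≤ l₀ → l₀ ≤ B * (1 + ‖X‖ ^ 2) → 0 ≤ l₁ → l₁ ≤ B * (1 + ‖X‖ ^ 2) →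
      0 ≤ l₂ → l₂ ≤ B * (1 + ‖X‖ ^ 2) →
      l₀ * ((s * ‖X‖) ^ 2 - 1) + l₁ * (A₁ ^ 2 - 16) + l₂ * (A₂ ^ 2 - 16) ≤
        K * d + ε * ‖X - z₀‖ ^ 2 := by
  have hε3 : 0 < ε / 3 := by positivity
  have hB3 : 0 ≤ 3 * B := by positivity
  refine ⟨3 * (160 * (3 * B) + 200 * 160 ^ 2 * (3 * B) ^ 2 / (ε / 3)), by positivity, ?_⟩
  intro X s d A₁ A₂ l₀ l₁ l₂ hs hs1 hd hd8 hX hA₁ hA₁' hA₂ hA₂' h0 h0' h1 h1' h2 h2'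
  have hds : 0 ≤ d * s := mul_nonneg hd hs
  have hds8 : d * s ≤ 8 := by nlinarith
  have hn := norm_nonneg X
  have ht := norm_nonneg (X - z₀)
  have ht1 : ‖X - z₀‖ ≤ ‖X‖ + 1 := (norm_sub_le X z₀).trans (by linarith)
  have ht2 : ‖X‖ ≤ ‖X - z₀‖ + 1 := by
    have := norm_add_le (X - z₀) z₀
    rw [sub_add_cancel] at this
    linarith
  have ht3 : 1 + ‖X‖ ^ 2 ≤ 3 * (1 + ‖X - z₀‖ ^ 2) := by
    have : ‖X‖ ^ 2 ≤ (‖X - z₀‖ + 1) ^ 2 := pow_le_pow_left₀ hn ht2 2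
    nlinarith [sq_nonneg (‖X - z₀‖ - 1)]
  have hst : s * ‖X - z₀‖ ≤ 10 := by
    have q1 : s * ‖X - z₀‖ ≤ s * (‖X‖ + 1) := mul_le_mul_of_nonneg_left ht1 hs
    nlinarith
  have hBt : B * (1 + ‖X‖ ^ 2) ≤ 3 * B * (1 + ‖X - z₀‖ ^ 2) := by
    have := mul_le_mul_of_nonneg_left ht3 hB
    linarith
  have a0 : (s * ‖X‖) ^ 2 - 1 ≤ 160 * (d * s) := by
    have q1 : 0 ≤ s * ‖X‖ := mul_nonneg hs hn
    have q2 : (s * ‖X‖) ^ 2 ≤ (1 + d * s) ^ 2 := pow_le_pow_left₀ q1 hX 2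
    nlinarith
  have a1 : A₁ ^ 2 - 16 ≤ 160 * (d * s) := by
    have q2 : A₁ ^ 2 ≤ (4 * (1 + d * s)) ^ 2 := pow_le_pow_left₀ hA₁ hA₁' 2
    nlinarith
  have a2 : A₂ ^ 2 - 16 ≤ 160 * (d * s) := by
    have q2 : A₂ ^ 2 ≤ (4 * (1 + d * s)) ^ 2 := pow_le_pow_left₀ hA₂ hA₂' 2
    nlinarith
  have b0 := grow_one hs hd hd8 hB3 hε3 ht hst hs1 (by norm_num : (0:ℝ) ≤ 160) a0 h0
    (h0'.trans hBt)
  have b1 := grow_one hs hd hd8 hB3 hε3 ht hst hs1 (by norm_num : (0:ℝ) ≤ 160) a1 h1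
    (h1'.trans hBt)
  have b2 := grow_one hs hd hd8 hB3 hε3 ht hst hs1 (by norm_num : (0:ℝ) ≤ 160) a2 h2
    (h2'.trans hBt)
  linarith

theorem norm_alpha_le {u : ℂ} (hu : ‖u‖ = 1) : ‖(1 + u) / 2‖ ≤ 1 := by
  rw [norm_div]
  have h3 := norm_add_le 1 u
  rw [hu, norm_one] at h3
  have : ‖(2:ℂ)‖ = 2 := by simp
  rw [this]
  linarith

/-- the energy around `(1 + u) / 2` -/
theorem energy_alpha {u : ℂ} (hu : ‖u‖ = 1) (X : ℂ) :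
    ‖X - (1 + u) / 2‖ ^ 2 = fu u X + (‖X‖ ^ 2 - X.re) := by
  have h1 : u.re ^ 2 + u.im ^ 2 = 1 := by
    have h2 : ‖u‖ ^ 2 = 1 := by rw [hu, one_pow]
    rw [← Complex.normSq_eq_norm_sq, Complex.normSq_apply] at h2
    linarith
  unfold fu
  rw [← Complex.normSq_eq_norm_sq, ← Complex.normSq_eq_norm_sq, Complex.normSq_apply,
    Complex.normSq_apply]
  have e1 : ((1 + u) / 2).re = (1 + u.re) / 2 := by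
    simp
  have e2 : ((1 + u) / 2).im = u.im / 2 := by
    simp
  simp only [mul_re, sub_re, sub_im, conj_re, conj_im, e1, e2]
  nlinarith

/-- **the bound for one target from a certificate in the direction `u`**, multipliers of the discs
with quadratic growth -/
theorem K_oneC_g {k₂ lam dc κ L₀ B : ℝ} {q u : ℂ} (hu : ‖u‖ = 1) (line : LineC u)
    (hB : 0 ≤ B) (hlam : 0 ≤ lam) (hk₂ : lam ≤ k₂)
    (hdc : 0 ≤ dc) (hκ : k₂ < 2 * κ) {G : ℂ → ℂ} (hG : GLip G L₀)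
    {M : ℂ → ℂ} (hM : Continuous M)
    {Nl : (ℂ → ℂ) → ℝ → ℝ → ℝ} (hN : IsNullC (DiscG π) Nl)
    (hp : ∀ (X : ℂ → ℂ) (x₁ x₂ : ℝ), NiceX X x₁ x₂ → ∀ ξ ∈ Icc x₁ x₂,
      ∀ η ∈ Icc (0:ℝ) π, Real.sin η * ‖X (pt ξ η)‖ ≤ 9 →
      Real.sin η * ‖deriv X (pt ξ η) / X (pt ξ η)‖ ≤ 38 → ∃ l₀ l₁ l₂ : ℝ,
      0 ≤ l₀ ∧ l₀ ≤ B * (1 + ‖X (pt ξ η)‖ ^ 2) ∧ 0 ≤ l₁ ∧ l₁ ≤ B * (1 + ‖X (pt ξ η)‖ ^ 2) ∧
      0 ≤ l₂ ∧ l₂ ≤ B * (1 + ‖X (pt ξ η)‖ ^ 2) ∧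
      T2 (fun m _ => G m) X ξ η + l₀ * (1 - (Real.sin η * ‖X (pt ξ η)‖) ^ 2) +
        l₁ * (16 - ‖dA 1 (X (pt ξ η)) (deriv X (pt ξ η)) (Real.sin η) (Real.cos η)‖ ^ 2) +
        l₂ * (16 - ‖dA (-1) (X (pt ξ η)) (deriv X (pt ξ η)) (Real.sin η) (Real.cos η)‖ ^ 2) ≤
      k₂ * fu u (X (pt ξ η)) + lam * (‖X (pt ξ η)‖ ^ 2 - (X (pt ξ η)).re) + dc +
        Nl X ξ η + MtC M q X ξ η) :
    KOneStmtC κ dc u G M q := by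
  have hG2 := GLip.two hG
  obtain ⟨ε, hε⟩ : ∃ ε, ε = (2 * κ - k₂) / 2 := ⟨_, rfl⟩
  have hε0 : 0 < ε := by rw [hε]; linarith
  obtain ⟨K, hK, hgrow⟩ := grow_err_u hB hε0 (norm_alpha_le hu)
  refine K_oneC (w := wf2 (fun m _ => G m)) (adm := DiscG π) (T := T2 (fun m _ => G m))
    (lam := lam + ε) (k₂ := k₂ + ε) hu
    (E3F hG2 1 le_rfl) (T2_le4 hG2) (fun X x₁ x₂ hX => F3_contOn hG2 hX) discG_Xf line ?_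
    (by linarith) (by linarith) (by linarith)
  refine stripC (P := DiscG π) (T := T2 (fun m _ => G m)) (Mt := MtC M q) (D := K * 8) (dc := dc)
    (by linarith) (by linarith) hdc hu (fun X x₁ x₂ hX => F3_contOn hG2 hX) (MtC_cont_X hM q) hN ?_
  intro X x₁ x₂ hx hX hP
  have q9 := hP.X_le le_rfl
  have q38 := hP.q_le le_rfl
  obtain ⟨δ, h1, h2, h3, h4, h5⟩ := hP
  refine ⟨fun ξ => K * δ ξ, by fun_prop, fun ξ => mul_nonneg hK (h2 ξ), ?_, ?_⟩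
  · rw [intervalIntegral.integral_const_mul]
    exact mul_le_mul_of_nonneg_left h4 hK
  · intro ξ hξ η hη
    have hs : 0 ≤ Real.sin η := sin_nn' hη
    obtain ⟨l₀, l₁, l₂, a1, a2, b1, b2, c1, c2, hl⟩ := hp X x₁ x₂ hX ξ hξ η hη
      (q9 ξ hξ η hη) (q38 ξ hξ η hη)
    obtain ⟨k1, k2, k3⟩ := h5 ξ hξ η hη
    have hg := hgrow (X (pt ξ η)) (Real.sin η) (δ ξ) _ _ l₀ l₁ l₂ hs (Real.sin_le_one η) (h2 ξ)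
      (h3 ξ hξ) k1 (norm_nonneg _) k2 (norm_nonneg _) k3 a1 a2 b1 b2 c1 c2
    rw [energy_alpha hu] at hg
    linarith

/-- **PTC from a pointwise certificate**, multipliers of the discs with quadratic growth -/
theorem pt_C_g {k₂ lam dl κ L₀ B Mb Lm ε₀ : ℝ} {u : ℂ} (hu : ‖u‖ = 1) (line : LineC u)
    (hB : 0 ≤ B) (hlam : 0 ≤ lam) (hk₂ : lam ≤ k₂) (hdl : 0 ≤ dl) (hκ : k₂ < 2 * κ)
    {G M M' : ℂ → ℂ} (hG : GLip G L₀) (hM : MOk M M' Mb Lm ε₀) (hε₀ : 0 < ε₀)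
    {Nl : (ℂ → ℂ) → ℝ → ℝ → ℝ} (hN : IsNullC (DiscG π) Nl)
    (hp : ∀ (X : ℂ → ℂ) (x₁ x₂ : ℝ), NiceX X x₁ x₂ → ∀ ξ ∈ Icc x₁ x₂,
      ∀ η ∈ Icc (0:ℝ) π, Real.sin η * ‖X (pt ξ η)‖ ≤ 9 →
      Real.sin η * ‖deriv X (pt ξ η) / X (pt ξ η)‖ ≤ 38 → ∃ l₀ l₁ l₂ : ℝ,
      0 ≤ l₀ ∧ l₀ ≤ B * (1 + ‖X (pt ξ η)‖ ^ 2) ∧ 0 ≤ l₁ ∧ l₁ ≤ B * (1 + ‖X (pt ξ η)‖ ^ 2) ∧
      0 ≤ l₂ ∧ l₂ ≤ B * (1 + ‖X (pt ξ η)‖ ^ 2) ∧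
      T2 (fun m _ => G m) X ξ η + l₀ * (1 - (Real.sin η * ‖X (pt ξ η)‖) ^ 2) +
        l₁ * (16 - ‖dA 1 (X (pt ξ η)) (deriv X (pt ξ η)) (Real.sin η) (Real.cos η)‖ ^ 2) +
        l₂ * (16 - ‖dA (-1) (X (pt ξ η)) (deriv X (pt ξ η)) (Real.sin η) (Real.cos η)‖ ^ 2) ≤
      k₂ * fu u (X (pt ξ η)) + lam * (‖X (pt ξ η)‖ ^ 2 - (X (pt ξ η)).re) + dl +
        Nl X ξ η + MtC M (Pool.Agent.Helper97.CKC.tau κ dl u) X ξ η) :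
    Pool.Agent.Helper97.CKC.PTC κ dl u G (Mh M') :=
  pt_ofC (by linarith) hdl hu hG hM hε₀
    (K_oneC_g hu line hB hlam hk₂ hdl hκ hG hM.cont hN hp)

end Pool.Agent.Helper69.CKC
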