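import Pool.Agent.Helper52.CKC.MainC
import Pool.Agent.Helper77.CKC.Line
import Pool.Agent.Helper69.CKC.KOneCg
import Pool.Agent.Helper69.CKC.HmC
set_option autoImplicit false
open Complex MeasureTheory Metric Set
open scoped Real ComplexConjugate

/-!
# Project CKC: from a pointwise certificate in the direction `u` to the class Σ
-/

namespace Pool.Agent.Helper69.CKC

open Pool.Agent.Helper39.Area Pool.Agent.Helper52.EK Pool.Agent.Helper69.EK3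
open Pool.Agent.Helper69.EK7 Pool.Agent.Helper69.CK

/-- **from a pointwise certificate to the integral means** -/
theorem sigC_of_cert {k₂ lam dl κ L₀ B Mb Lm ε₀ : ℝ} {u : ℂ} (hu : ‖u‖ = 1) (hκ1 : 1 ≤ κ)
    (hB : 0 ≤ B) (hlam : 0 ≤ lam) (hk₂ : lam ≤ k₂) (hdl : 0 ≤ dl) (hκ : k₂ < 2 * κ)
    {G M M' : ℂ → ℂ} (hG : GLip G L₀) (hM : MOk M M' Mb Lm ε₀) (hε₀ : 0 < ε₀)
    (hMb : Mb < 2 * κ) {Nl : (ℂ → ℂ) → ℝ → ℝ → ℝ} (hN : IsNullC (DiscG π) Nl)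
    (hp : ∀ (X : ℂ → ℂ) (x₁ x₂ : ℝ), NiceX X x₁ x₂ → ∀ ξ ∈ Icc x₁ x₂,
      ∀ η ∈ Icc (0:ℝ) π, Real.sin η * ‖X (pt ξ η)‖ ≤ 9 →
      Real.sin η * ‖deriv X (pt ξ η) / X (pt ξ η)‖ ≤ 38 → ∃ l₀ l₁ l₂ : ℝ,
      0 ≤ l₀ ∧ l₀ ≤ B * (1 + ‖X (pt ξ η)‖ ^ 2) ∧ 0 ≤ l₁ ∧ l₁ ≤ B * (1 + ‖X (pt ξ η)‖ ^ 2) ∧
      0 ≤ l₂ ∧ l₂ ≤ B * (1 + ‖X (pt ξ η)‖ ^ 2) ∧
      T2 (fun m _ => G m) X ξ η + l₀ * (1 - (Real.sin η * ‖X (pt ξ η)‖) ^ 2) +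
        l₁ * (16 - ‖dA 1 (X (pt ξ η)) (deriv X (pt ξ η)) (Real.sin η) (Real.cos η)‖ ^ 2) +
        l₂ * (16 - ‖dA (-1) (X (pt ξ η)) (deriv X (pt ξ η)) (Real.sin η) (Real.cos η)‖ ^ 2) ≤
      k₂ * fu u (X (pt ξ η)) + lam * (‖X (pt ξ η)‖ ^ 2 - (X (pt ξ η)).re) + dl +
        Nl X ξ η + MtC M (Pool.Agent.Helper97.CKC.tau κ dl u) X ξ η)
    {t : ℂ} (ht : κ ≤ ‖t‖) (htu : t = -((‖t‖ : ℂ) * conj u)) {e : ℝ} (he : 0 < e) :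
    Pool.Agent.Helper58.CKC.SigC t (‖t‖ - 1 + dl + e) :=
  Pool.Agent.Helper52.CKC.main_of_ptC hu hκ1 hdl ((norm_nonneg _).trans (hM.le 0)) hMb hG
    (fun β R h => Mh_cont hM h.toExt) (Mh_le hM)
    (pt_C_g hu (Pool.Agent.Helper77.CKC.line_C hu) hB hlam hk₂ hdl hκ hG hM hε₀ hN hp) ht htu he

end Pool.Agent.Helper69.CKC
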