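import Pool.Agent.Helper69.CKC.StripC
import Pool.Agent.Helper68.EKC.KOneU
import Pool.Agent.Helper69.EK7.KOneF
set_option autoImplicit false
open Complex MeasureTheory Metric Set
open scoped Real ComplexConjugate

/-!
# Project CKC: the bound for one target with a weight and the critical multiplier, direction `u`
-/

namespace Pool.Agent.Helper69.CKC

open Pool.Agent.Helper39.Area Pool.Agent.Helper52.EK Pool.Agent.Helper69.EK3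
open Pool.Agent.Helper69.EK7 Pool.Agent.Helper84.CK Pool.Agent.Helper68.EKC

/-- the integrated inequality with a weight, direction `u` -/
def StripIneqC (u : ℂ) (lam k₂ dc : ℝ) (T Mt : (ℂ → ℂ) → ℝ → ℝ → ℝ)
    (adm : (ℂ → ℂ) → ℝ → ℝ → Prop) : Prop :=
  ∃ C : ℝ, 0 ≤ C ∧ ∀ (X : ℂ → ℂ) (x₁ x₂ V g : ℝ) (Ω Ω₁ Ω₂ : ℝ → ℝ → ℝ), x₁ ≤ x₂ → 0 < g →
      WtF x₁ x₂ V Ω Ω₁ Ω₂ → NiceX X x₁ x₂ → adm X x₁ x₂ →
      II x₁ x₂ (fun ξ η => Ω ξ η * T X ξ η) ≤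
      (k₂ - lam) * II x₁ x₂ (fun ξ η => fu u (X (pt ξ η))) +
        (lam + g) * II x₁ x₂ (fun ξ η => ‖X (pt ξ η) - (1 + u) / 2‖ ^ 2) +
        (k₂ - lam) ^ 2 / (4 * g) * II x₁ x₂ (fun ξ η => 1 - Ω ξ η) +
        dc * (π * (x₂ - x₁)) + II x₁ x₂ (fun ξ η => Ω ξ η * Mt X ξ η) +
        C * (1 + V * (π * (x₂ - x₁) + II x₁ x₂ (fun ξ η => ‖X (pt ξ η) - 1‖ ^ 2)))

/-- the linear term: helper64's line lemma -/
def LineC (u : ℂ) : Prop :=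
  ∀ g : ℝ, 0 < g → ∃ C : ℝ, ∀ (β L : ℂ → ℂ) (R a : ℝ), ExtR β R → IsLog β L →
    Real.exp (-1) < a → a < 1 → Real.log (tau a) + 1 ≤ -1 →
    2 * II (Real.log (tau a) + 1) (-1) (fun ξ η => fu u (Xf β a (pt ξ η))) ≤
      π * (- Real.log (1 - a ^ 2) + (conj u * L a).re) + g * (-1 - (Real.log (tau a) + 1)) + C

/-- the energies around `1` and around `(1 + u) / 2` -/
theorem around_one {u : ℂ} (hu : ‖u‖ = 1) {X : ℂ → ℂ} {x₁ : ℝ} (hx12 : x₁ ≤ -1)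
    (hX : NiceX X x₁ (-1)) :
    II x₁ (-1) (fun ξ η => ‖X (pt ξ η) - 1‖ ^ 2) ≤
      2 * II x₁ (-1) (fun ξ η => ‖X (pt ξ η) - (1 + u) / 2‖ ^ 2) + 2 * (π * (-1 - x₁)) := by
  have hπ : 0 < π := Real.pi_pos
  have cXc := CH_comp (h := π) (x₁ := x₁) (x₂ := -1) hX.an.continuousOn
    (W := fun X => ‖X - (1 + u) / 2‖ ^ 2) (by fun_prop)
  have e4 : IH x₁ (-1) π (fun _ _ => (2:ℝ)) = 2 * (π * (-1 - x₁)) := by
    unfold IH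
    simp
    ring
  rw [← e4, II_eq_IH, II_eq_IH, ← IH_const_mul, ← IH_add hx12 hπ.le ((CH_const 2).mul cXc)
    (CH_const 2)]
  refine IH_mono hx12 hπ.le (CH_en' hX) (((CH_const 2).mul cXc).add (CH_const 2)) ?_
  intro ξ _ η _
  have e5 : X (pt ξ η) - 1 = (X (pt ξ η) - (1 + u) / 2) + (u - 1) / 2 := by ring
  have e6 : ‖(u - 1) / 2‖ ≤ 1 := by
    rw [norm_div]
    have h3 := norm_sub_le u 1
    rw [hu, norm_one] at h3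
    have : ‖(2:ℂ)‖ = 2 := by simp
    rw [this]
    linarith
  have e7 : ‖X (pt ξ η) - 1‖ ≤ ‖X (pt ξ η) - (1 + u) / 2‖ + 1 := by
    rw [e5]
    exact (norm_add_le _ _).trans (add_le_add le_rfl e6)
  have e8 := norm_nonneg (X (pt ξ η) - 1)
  have e9 := norm_nonneg (X (pt ξ η) - (1 + u) / 2)
  nlinarith [sq_nonneg (‖X (pt ξ η) - (1 + u) / 2‖ - 1)]

/-- the energy of one target -/
theorem energy_le {u : ℂ} (hu : ‖u‖ = 1) {g Cd : ℝ} (hg0 : 0 < g) {β L : ℂ → ℂ} {R a : ℝ}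
    (hβ : ExtR β R) (hL : IsLog β L) (ha0 : 0 < a) (ha1 : a < 1) {x₁ : ℝ}
    (hxt : Real.log (tau a) < x₁) (hx12 : x₁ ≤ -1)
    (hdd : II x₁ (-1) (fun ξ η => ‖kapU a u (pt ξ η) - (1 + u) / 2‖ ^ 2) ≤ Cd) :
    II x₁ (-1) (fun ξ η => ‖Xf β a (pt ξ η) - (1 + u) / 2‖ ^ 2) ≤
      (1 + g) / 4 * (2 * π * (- Real.log (1 - a ^ 2) + (conj u * L a).re)) +
        (1 + 1 / g) * |Cd| ∧ 0 ≤ - Real.log (1 - a ^ 2) + (conj u * L a).re := by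
  have hb := E1bU hβ hL hu ha0 ha1 hxt hx12 (by norm_num)
  have hX : NiceX (Xf β a) x₁ (-1) := Pool.Agent.Helper67.EK.E1c hβ ha0 ha1 hxt (by norm_num)
  have cX : ContinuousOn (fun v : ℝ × ℝ => Xf β a (pt v.1 v.2)) (Icc x₁ (-1) ×ˢ Icc 0 π) :=
    hX.an.continuousOn.comp Pool.Agent.Helper70.EK.continuous_pt.continuousOn
      (Pool.Agent.Helper83.EK.pt_mapsTo _ _)
  have cK : ContinuousOn (fun v : ℝ × ℝ => kapU a u (pt v.1 v.2)) (Icc x₁ (-1) ×ˢ Icc 0 π) :=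
    kapU_contOn u ha0 ha1 hxt (by norm_num)
  have c1 : ContinuousOn (fun v : ℝ × ℝ => ‖Xf β a (pt v.1 v.2) - (1 + u) / 2‖ ^ 2)
      (Icc x₁ (-1) ×ˢ Icc 0 π) := (cX.sub continuousOn_const).norm.pow 2
  have c2 : ContinuousOn (fun v : ℝ × ℝ => ‖2 * Xf β a (pt v.1 v.2) -
      2 * kapU a u (pt v.1 v.2)‖ ^ 2) (Icc x₁ (-1) ×ˢ Icc 0 π) :=
    ((continuousOn_const.mul cX).sub (continuousOn_const.mul cK)).norm.pow 2
  have c3 : ContinuousOn (fun v : ℝ × ℝ => ‖kapU a u (pt v.1 v.2) - (1 + u) / 2‖ ^ 2)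
      (Icc x₁ (-1) ×ˢ Icc 0 π) := (cK.sub continuousOn_const).norm.pow 2
  have hE := Pool.Agent.Helper83.EK.II_le3
    (F₁ := fun ξ η => ‖Xf β a (pt ξ η) - (1 + u) / 2‖ ^ 2)
    (F₂ := fun ξ η => ‖2 * Xf β a (pt ξ η) - 2 * kapU a u (pt ξ η)‖ ^ 2)
    (F₃ := fun ξ η => ‖kapU a u (pt ξ η) - (1 + u) / 2‖ ^ 2) (p := (1 + g) / 4) (q := 1 + 1 / g)
    hx12 c1 c2 c3 (by
      intro ξ η
      have h1 : Xf β a (pt ξ η) - (1 + u) / 2 = (2 * Xf β a (pt ξ η) -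
        2 * kapU a u (pt ξ η)) / 2 + (kapU a u (pt ξ η) - (1 + u) / 2) := by ring
      have h2 : ‖Xf β a (pt ξ η) - (1 + u) / 2‖ ≤ ‖2 * Xf β a (pt ξ η) -
          2 * kapU a u (pt ξ η)‖ / 2 + ‖kapU a u (pt ξ η) - (1 + u) / 2‖ := by
        rw [h1]
        refine (norm_add_le _ _).trans ?_
        rw [norm_div]
        simp
      have h3 := norm_nonneg (Xf β a (pt ξ η) - (1 + u) / 2)
      have h4 := norm_nonneg (2 * Xf β a (pt ξ η) - 2 * kapU a u (pt ξ η))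
      have h5 := norm_nonneg (kapU a u (pt ξ η) - (1 + u) / 2)
      generalize ‖Xf β a (pt ξ η) - (1 + u) / 2‖ = u₁ at *
      generalize ‖2 * Xf β a (pt ξ η) - 2 * kapU a u (pt ξ η)‖ = v at *
      generalize ‖kapU a u (pt ξ η) - (1 + u) / 2‖ = w at *
      have h6 : u₁ ^ 2 ≤ (v / 2 + w) ^ 2 := by nlinarith
      have h7 : (v / 2 + w) ^ 2 ≤ (1 + g) / 4 * v ^ 2 + (1 + 1 / g) * w ^ 2 := by
        have h8 : (1 + g) / 4 * v ^ 2 + (1 + 1 / g) * w ^ 2 - (v / 2 + w) ^ 2 =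
            (g * v / 2 - w) ^ 2 / g := by
          field_simp
          ring
        have h9 : 0 ≤ (g * v / 2 - w) ^ 2 / g := by positivity
        linarith
      exact h6.trans h7)
  constructor
  · have h1 : 0 < (1 + g) / 4 := by positivity
    have h2 : 0 < 1 + 1 / g := by positivity
    have h3 := mul_le_mul_of_nonneg_left hb h1.le
    have h4 := mul_le_mul_of_nonneg_left (hdd.trans (le_abs_self Cd)) h2.le
    linarith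
  · have h1 : 0 ≤ II x₁ (-1) (fun ξ η => ‖2 * Xf β a (pt ξ η) - 2 * kapU a u (pt ξ η)‖ ^ 2) :=
      Pool.Agent.Helper83.EK.II_nonneg hx12 (fun ξ η => by positivity)
    have h2 : 0 ≤ 2 * π * (- Real.log (1 - a ^ 2) + (conj u * L a).re) := h1.trans hb
    exact nonneg_of_mul_nonneg_right h2 (by positivity)

/-- the arithmetic of the last step -/
theorem arith {κ k₂ lam dc d k g ε l Λ E E' S Mv Wv C₁ V Cd Cs C₃ Kv Tv TvΩ : ℝ}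
    (hd : d = 2 * κ - k₂) (hd0 : 0 < d) (hk : k = lam + d / 8 + d / 8 + d / 8) (hk0 : 0 ≤ k)
    (hg0 : 0 < g) (hkg : k * g ≤ d / 8) (hkl : 0 ≤ k₂ - lam) (hlen : 0 ≤ l) (hC₁0 : 0 ≤ C₁)
    (hV : 0 ≤ V) (hCV : C₁ * V ≤ d / 16) (hEn : 0 ≤ E) (hΛ0 : 0 ≤ Λ) (hε : 0 < ε)
    (hE1 : E' ≤ 2 * E + 2 * (π * l))
    (hE2 : E ≤ (1 + g) / 4 * (2 * π * Λ) + (1 + 1 / g) * |Cd|)
    (hs : 2 * S ≤ π * Λ + 2 * π * ε / (k₂ - lam + 1) * l + Cs)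
    (hst : TvΩ ≤ (k₂ - lam) * S + (lam + d / 8) * E + (k₂ - lam) ^ 2 / (4 * (d / 8)) * Wv +
      dc * (π * l) + Mv + C₁ * (1 + V * (π * l + E')))
    (hsplit : Tv ≤ TvΩ + 4 * Wv) (hK : Kv ≤ π⁻¹ * Tv + C₃) :
    Kv + π⁻¹ * (d / 8) * E ≤ κ * Λ + π⁻¹ * Mv +
      π⁻¹ * ((k₂ - lam) ^ 2 / (4 * (d / 8)) + 4) * Wv + (dc + ε) * l +
      (|C₃| + π⁻¹ * (k * ((1 + 1 / g) * |Cd|)) + π⁻¹ * ((k₂ - lam) * (|Cs| / 2)) +
        3 * C₁) * (1 + V * l) := by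
  have hπ : 0 < π := Real.pi_pos
  have hπi : 0 < π⁻¹ := inv_pos.mpr hπ
  have hVl : 0 ≤ V * l := mul_nonneg hV hlen
  have hCVE : C₁ * (V * E') ≤ d / 8 * E + 2 * π * (C₁ * (V * l)) := by
    have h2 := mul_le_mul_of_nonneg_right hCV hEn
    have h3 := mul_le_mul_of_nonneg_left hE1 (mul_nonneg hC₁0 hV)
    linarith
  have hT : Tv + d / 8 * E ≤
      k * E + (k₂ - lam) * S + dc * (π * l) + Mv +
        ((k₂ - lam) ^ 2 / (4 * (d / 8)) + 4) * Wv + C₁ + 3 * π * (C₁ * (V * l)) := by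
    have h3 : C₁ * (1 + V * (π * l + E')) = C₁ + π * (C₁ * (V * l)) + C₁ * (V * E') := by ring
    rw [hk]
    have h4 : (lam + d / 8 + d / 8 + d / 8) * E = (lam + d / 8) * E + d / 8 * E + d / 8 * E := by
      ring
    rw [h4]
    rw [h3] at hst
    linarith
  have h2 : k * E ≤ k * ((1 + g) / 4 * (2 * π * Λ) + (1 + 1 / g) * |Cd|) :=
    mul_le_mul_of_nonneg_left hE2 hk0
  have h3 : (k₂ - lam) * S ≤ (k₂ - lam) * (π * Λ / 2 + |Cs| / 2) + π * ε * l := by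
    have h4 : S ≤ (π * Λ + 2 * π * ε / (k₂ - lam + 1) * l + |Cs|) / 2 := by
      linarith [le_abs_self Cs]
    have h5 := mul_le_mul_of_nonneg_left h4 hkl
    have h6 : (k₂ - lam) * (ε / (k₂ - lam + 1)) ≤ ε := by
      rw [mul_div_assoc', div_le_iff₀ (by linarith)]
      nlinarith
    have h7 := mul_le_mul_of_nonneg_right h6 (mul_nonneg hπ.le hlen)
    have h8 : (k₂ - lam) * ((π * Λ + 2 * π * ε / (k₂ - lam + 1) * l + |Cs|) / 2) =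
        (k₂ - lam) * (π * Λ / 2 + |Cs| / 2) + (k₂ - lam) * (ε / (k₂ - lam + 1)) * (π * l) := by
      ring
    rw [h8] at h5
    linarith
  have h4 : π⁻¹ * (Tv + d / 8 * E) ≤
      π⁻¹ * (k * ((1 + g) / 4 * (2 * π * Λ) + (1 + 1 / g) * |Cd|) +
        ((k₂ - lam) * (π * Λ / 2 + |Cs| / 2) + π * ε * l) + dc * (π * l) + Mv +
        ((k₂ - lam) ^ 2 / (4 * (d / 8)) + 4) * Wv + C₁ + 3 * π * (C₁ * (V * l))) :=
    mul_le_mul_of_nonneg_left (by linarith) hπi.le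
  have h5 : π⁻¹ * (k * ((1 + g) / 4 * (2 * π * Λ) + (1 + 1 / g) * |Cd|) +
        ((k₂ - lam) * (π * Λ / 2 + |Cs| / 2) + π * ε * l) + dc * (π * l) + Mv +
        ((k₂ - lam) ^ 2 / (4 * (d / 8)) + 4) * Wv + C₁ + 3 * π * (C₁ * (V * l))) =
      (k * (1 + g) + (k₂ - lam)) / 2 * Λ + π⁻¹ * (k * ((1 + 1 / g) * |Cd|)) +
        π⁻¹ * ((k₂ - lam) * (|Cs| / 2)) + (dc + ε) * l + π⁻¹ * Mv +
        π⁻¹ * ((k₂ - lam) ^ 2 / (4 * (d / 8)) + 4) * Wv + π⁻¹ * C₁ + 3 * (C₁ * (V * l)) := by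
    field_simp
    ring
  have h6 : (k * (1 + g) + (k₂ - lam)) / 2 * Λ ≤ κ * Λ := by
    apply mul_le_mul_of_nonneg_right _ hΛ0
    have : k ≤ lam + 3 * d / 8 := by rw [hk]; linarith
    rw [hd] at this hkg hd0
    linarith
  have h7 : 0 ≤ π⁻¹ * (k * ((1 + 1 / g) * |Cd|)) := by positivity
  have h8 : 0 ≤ π⁻¹ * ((k₂ - lam) * (|Cs| / 2)) := by positivity
  have h9 : (|C₃| + π⁻¹ * (k * ((1 + 1 / g) * |Cd|)) + π⁻¹ * ((k₂ - lam) * (|Cs| / 2)) +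
      3 * C₁) * (1 + V * l) =
      |C₃| + π⁻¹ * (k * ((1 + 1 / g) * |Cd|)) + π⁻¹ * ((k₂ - lam) * (|Cs| / 2)) + 3 * C₁ +
      3 * (C₁ * (V * l)) + (|C₃| + π⁻¹ * (k * ((1 + 1 / g) * |Cd|)) +
        π⁻¹ * ((k₂ - lam) * (|Cs| / 2))) * (V * l) := by ring
  have h10 : 0 ≤ (|C₃| + π⁻¹ * (k * ((1 + 1 / g) * |Cd|)) +
      π⁻¹ * ((k₂ - lam) * (|Cs| / 2))) * (V * l) := mul_nonneg (by positivity) hVl
  have h11 := le_abs_self C₃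
  have h13 : π⁻¹ * C₁ ≤ 3 * C₁ := by
    refine mul_le_mul_of_nonneg_right ?_ hC₁0
    rw [inv_le_comm₀ hπ (by norm_num)]
    linarith [Real.pi_gt_three]
  rw [h5, mul_add] at h4
  rw [h9]
  have h12 : π⁻¹ * (d / 8 * E) = π⁻¹ * (d / 8) * E := by ring
  rw [h12] at h4
  linarith


theorem K_oneC {lam k₂ dc κ : ℝ} {u : ℂ} (hu : ‖u‖ = 1) {w : (ℂ → ℂ) → ℂ → ℂ}
    {T Mt : (ℂ → ℂ) → ℝ → ℝ → ℝ}
    (hE3 : ∃ C : ℝ, ∀ (β : ℂ → ℂ) (R a : ℝ), ExtR β R → Real.exp (-1) < a → a < 1 →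
      Real.log (tau a) + 1 ≤ -1 →
      Kf (w β) 1 (-1) (Real.log a) ≤ π⁻¹ * II (Real.log (tau a) + 1) (-1) (T (Xf β a)) + C)
    (hT4 : ∀ (X : ℂ → ℂ) (ξ η : ℝ), T X ξ η ≤ 4)
    (hTc : ∀ (X : ℂ → ℂ) (x₁ x₂ : ℝ), NiceX X x₁ x₂ → CH x₁ x₂ π (T X))
    {adm : (ℂ → ℂ) → ℝ → ℝ → Prop}
    (hadm : ∀ (β : ℂ → ℂ) (R a : ℝ), ExtR β R → 0 < a → a < 1 → Real.log (tau a) + 1 ≤ -1 →
      adm (Xf β a) (Real.log (tau a) + 1) (-1))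
    (line : LineC u)
    (hS : StripIneqC u lam k₂ dc T Mt adm) (h0 : 0 ≤ lam) (h1 : lam ≤ k₂)
    (hκ : k₂ < 2 * κ) : ∃ e C₄ V₀ a₀ : ℝ, 0 < e ∧ 0 ≤ C₄ ∧ 0 < V₀ ∧ a₀ < 1 ∧
      ∀ ε : ℝ, 0 < ε → ∃ C : ℝ, 0 ≤ C ∧
      ∀ (β L : ℂ → ℂ) (R a V : ℝ) (Ω Ω₁ Ω₂ : ℝ → ℝ → ℝ), ExtR β R → IsLog β L → a₀ < a → a < 1 →
      0 ≤ V → V ≤ V₀ → WtF (Real.log (tau a) + 1) (-1) V Ω Ω₁ Ω₂ →
      Kf (w β) 1 (-1) (Real.log a) +
          e * II (Real.log (tau a) + 1) (-1) (fun ξ η => ‖Xf β a (pt ξ η) - (1 + u) / 2‖ ^ 2) ≤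
        κ * (- Real.log (1 - a ^ 2) + (conj u * L a).re) +
          π⁻¹ * II (Real.log (tau a) + 1) (-1) (fun ξ η => Ω ξ η * Mt (Xf β a) ξ η) +
          C₄ * II (Real.log (tau a) + 1) (-1) (fun ξ η => 1 - Ω ξ η) +
          (dc + ε) * (-1 - (Real.log (tau a) + 1)) +
          C * (1 + V * (-1 - (Real.log (tau a) + 1))) := by
  obtain ⟨C₁, hC₁0, hC₁⟩ := hS
  obtain ⟨Cd, hCd⟩ := E1dU hu
  obtain ⟨d, hd⟩ : ∃ d, d = 2 * κ - k₂ := ⟨_, rfl⟩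
  have hd0 : 0 < d := by rw [hd]; linarith
  obtain ⟨V₀, hV₀⟩ : ∃ V₀, V₀ = d / (16 * (C₁ + 1)) := ⟨_, rfl⟩
  have hV₀0 : 0 < V₀ := by rw [hV₀]; positivity
  have hCV : C₁ * V₀ ≤ d / 16 := by
    have h2 : 16 * (V₀ * (C₁ + 1)) = d := by
      rw [hV₀]
      field_simp
    nlinarith
  -- the energy coefficient
  obtain ⟨k, hk⟩ : ∃ k, k = lam + d / 8 + d / 8 + d / 8 := ⟨_, rfl⟩
  have hk0 : 0 ≤ k := by rw [hk]; linarith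
  obtain ⟨g, hg⟩ : ∃ g, g = d / (8 * (k + 1)) := ⟨_, rfl⟩
  have hg0 : 0 < g := by rw [hg]; positivity
  have hkg : k * g ≤ d / 8 := by
    have h2 : 8 * (g * (k + 1)) = d := by
      rw [hg]
      field_simp
    nlinarith
  have hkl : 0 ≤ k₂ - lam := by linarith
  obtain ⟨C₃, hC₃⟩ := hE3
  have hπ : 0 < π := Real.pi_pos
  have hπi : 0 < π⁻¹ := inv_pos.mpr hπ
  refine ⟨π⁻¹ * (d / 8), π⁻¹ * ((k₂ - lam) ^ 2 / (4 * (d / 8)) + 4), V₀,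
    max (Real.exp (-1)) (1 - Real.exp (-2 * 1)), by positivity, by positivity, hV₀0, ?_, ?_⟩
  · apply max_lt
    · rw [← Real.exp_zero]
      exact Real.exp_lt_exp.mpr (by norm_num)
    · linarith [Real.exp_pos (-2 * 1)]
  intro ε hε
  obtain ⟨Cs, hCs⟩ := line (2 * π * ε / (k₂ - lam + 1)) (by positivity)
  refine ⟨|C₃| + π⁻¹ * (k * ((1 + 1 / g) * |Cd|)) + π⁻¹ * ((k₂ - lam) * (|Cs| / 2)) +
    3 * C₁, by positivity, ?_⟩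
  intro β L R a V Ω Ω₁ Ω₂ hβ hL ha ha1 hV hVV hw
  have hae : Real.exp (-1) < a := lt_of_le_of_lt (le_max_left _ _) ha
  have ha0 : 0 < a := (Real.exp_pos _).trans hae
  have hfar := Pool.Agent.Helper83.EK.tau_far (A := 1) (lt_of_le_of_lt (le_max_right _ _) ha) ha0
    ha1
  have hK := hC₃ β R a hβ hae ha1 hfar
  have hs := hCs β L R a hβ hL hae ha1 hfar
  have had := hadm β R a hβ ha0 ha1 hfar
  obtain ⟨x₁, hx₁⟩ : ∃ x₁, x₁ = Real.log (tau a) + 1 := ⟨_, rfl⟩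
  rw [← hx₁] at hK hfar hw hs had ⊢
  have hx12 : x₁ ≤ -1 := by linarith
  have hxt : Real.log (tau a) < x₁ := by linarith
  have hX : NiceX (Xf β a) x₁ (-1) := Pool.Agent.Helper67.EK.E1c hβ ha0 ha1 hxt (by norm_num)
  have hst := hC₁ (Xf β a) x₁ (-1) V (d / 8) Ω Ω₁ Ω₂ hx12 (by positivity) hw hX had
  have hdd := hCd a ha0 ha1 x₁ (-1) hx₁.ge hx12 le_rfl
  -- the part where the weight is smaller than `1`
  have cT : CH x₁ (-1) π (T (Xf β a)) := hTc _ _ _ hX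
  have hsplit : II x₁ (-1) (T (Xf β a)) ≤ II x₁ (-1) (fun ξ η => Ω ξ η * T (Xf β a) ξ η) +
      4 * II x₁ (-1) (fun ξ η => 1 - Ω ξ η) := by
    have c3 : CH x₁ (-1) π (fun ξ η => 4 * (1 - Ω ξ η)) :=
      (CH_const 4).mul (CH.sub (CH_const 1) hw.c0)
    rw [II_eq_IH, II_eq_IH, II_eq_IH, ← IH_const_mul, ← IH_add hx12 hπ.le (hw.c0.mul cT) c3]
    refine IH_mono hx12 hπ.le cT ((hw.c0.mul cT).add c3) ?_
    intro ξ hξ η hη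
    obtain ⟨w0, w1⟩ := hw.b01 ξ hξ η hη
    have h4 := hT4 (Xf β a) ξ η
    nlinarith
  have hE1 := around_one hu hx12 hX
  obtain ⟨hE2, hΛ0⟩ := energy_le hu hg0 hβ hL ha0 ha1 hxt hx12 hdd
  have hEn : 0 ≤ II x₁ (-1) (fun ξ η => ‖Xf β a (pt ξ η) - (1 + u) / 2‖ ^ 2) :=
    Pool.Agent.Helper83.EK.II_nonneg hx12 (fun ξ η => by positivity)
  exact arith hd hd0 hk hk0 hg0 hkg hkl (by linarith : 0 ≤ -1 - x₁) hC₁0 hV
    ((mul_le_mul_of_nonneg_left hVV hC₁0).trans hCV) hEn hΛ0 hε hE1 hE2 hs hst hsplit hK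

end Pool.Agent.Helper69.CKC
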