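import Pool.Agent.Helper84.CK.StripW
set_option autoImplicit false
open Complex MeasureTheory Metric Set
open scoped Real ComplexConjugate

/-!
# Project CKC: null Lagrangians of the full strip against a weight

No symmetry is used, there is no centre line term.
-/

namespace Pool.Agent.Helper69.CKC

open Pool.Agent.Helper52.EK Pool.Agent.Helper69.EK3 Pool.Agent.Helper69.EK7
open Pool.Agent.Helper84.CK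

/-- the energy of the strip -/
noncomputable def Es (X : ℂ → ℂ) (x₁ x₂ : ℝ) : ℝ :=
  IH x₁ x₂ π (fun ξ η => ‖X (pt ξ η) - 1‖ ^ 2)

/-- `N` is null in the full strip against weights -/
structure IsNullC (P : (ℂ → ℂ) → ℝ → ℝ → Prop) (N : (ℂ → ℂ) → ℝ → ℝ → ℝ) : Prop where
  cN : ∀ (X : ℂ → ℂ) (x₁ x₂ : ℝ), NiceX X x₁ x₂ → CH x₁ x₂ π (N X)
  le : ∃ C : ℝ, ∀ (X : ℂ → ℂ) (x₁ x₂ V : ℝ) (Ω Ω₁ Ω₂ : ℝ → ℝ → ℝ), x₁ ≤ x₂ →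
    WtF x₁ x₂ V Ω Ω₁ Ω₂ → NiceX X x₁ x₂ → P X x₁ x₂ →
    |IH x₁ x₂ π (fun ξ η => Ω ξ η * N X ξ η)| ≤ C * (V * (π * (x₂ - x₁) + Es X x₁ x₂))

theorem contF {X : ℂ → ℂ} {x₁ x₂ : ℝ} (hX : ContinuousOn X (Rect x₁ x₂)) :
    ContinuousOn (fun p : ℝ × ℝ => X (pt p.1 p.2)) (Icc x₁ x₂ ×ˢ Icc 0 π) :=
  contH (h := π) hX

theorem pt_mem {x₁ x₂ ξ η : ℝ} (h1 : ξ ∈ Icc x₁ x₂) (h2 : η ∈ Icc 0 π) : pt ξ η ∈ Rect x₁ x₂ :=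
  pt_mem_RectH h1 h2

theorem sin_nn' {η : ℝ} (hη : η ∈ Icc (0:ℝ) π) : 0 ≤ Real.sin η :=
  Real.sin_nonneg_of_nonneg_of_le_pi hη.1 hη.2

theorem CH_en' {X : ℂ → ℂ} {x₁ x₂ : ℝ} (hX : NiceX X x₁ x₂) :
    CH x₁ x₂ π (fun ξ η => ‖X (pt ξ η) - 1‖ ^ 2) :=
  CH_comp (h := π) hX.an.continuousOn (W := fun X => ‖X - 1‖ ^ 2) (by fun_prop)

theorem Es_nonneg {X : ℂ → ℂ} {x₁ x₂ : ℝ} (hx : x₁ ≤ x₂) : 0 ≤ Es X x₁ x₂ := by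
  unfold Es IH
  refine intervalIntegral.integral_nonneg hx fun ξ _ => ?_
  exact intervalIntegral.integral_nonneg Real.pi_pos.le fun η _ => sq_nonneg _

theorem pi2f : π / 2 ∈ Icc (0:ℝ) π := ⟨by positivity, by linarith [Real.pi_pos]⟩

theorem V0_of {x₁ x₂ V : ℝ} {Ω Ω₁ Ω₂ : ℝ → ℝ → ℝ} (hx : x₁ ≤ x₂) (h : WtF x₁ x₂ V Ω Ω₁ Ω₂) :
    0 ≤ V := (mul_nonneg (abs_nonneg _) (sin_nn' pi2f)).trans (h.g1 x₁ ⟨le_rfl, hx⟩ _ pi2f)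

theorem CHf_line {x₁ x₂ η : ℝ} {F : ℝ → ℝ → ℝ} (hF : CH x₁ x₂ π F)
    (hη : η ∈ Icc (0:ℝ) π) : ContinuousOn (fun ξ => F ξ η) (Icc x₁ x₂) :=
  hF.comp (f := fun ξ : ℝ => (ξ, η)) (by fun_prop) fun _ hξ => ⟨hξ, hη⟩

theorem CHf_col {x₁ x₂ ξ : ℝ} {F : ℝ → ℝ → ℝ} (hF : CH x₁ x₂ π F)
    (hξ : ξ ∈ Icc x₁ x₂) : ContinuousOn (fun η => F ξ η) (Icc 0 π) :=
  hF.comp (f := fun η : ℝ => (ξ, η)) (by fun_prop) fun _ hη => ⟨hξ, hη⟩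

theorem IH_err_eq {X : ℂ → ℂ} {x₁ x₂ V : ℝ} (hx : x₁ ≤ x₂) (hX : NiceX X x₁ x₂) :
    IH x₁ x₂ π (fun ξ η => V * (1 + ‖X (pt ξ η) - 1‖ ^ 2)) =
      V * (π * (x₂ - x₁) + Es X x₁ x₂) := by
  have hpi : (0:ℝ) ≤ π := Real.pi_pos.le
  rw [IH_const_mul, IH_add hx hpi (CH_const 1) (CH_en' hX)]
  unfold Es
  congr 2
  unfold IH
  simp
  ring

theorem err_leC {X : ℂ → ℂ} {x₁ x₂ V : ℝ} {F : ℝ → ℝ → ℝ} (hx : x₁ ≤ x₂) (hX : NiceX X x₁ x₂)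
    (cF : CH x₁ x₂ π F) {C : ℝ}
    (h : ∀ ξ ∈ Icc x₁ x₂, ∀ η ∈ Icc (0:ℝ) π,
      |F ξ η| ≤ C * (V * (1 + ‖X (pt ξ η) - 1‖ ^ 2))) :
    |IH x₁ x₂ π F| ≤ C * (V * (π * (x₂ - x₁) + Es X x₁ x₂)) := by
  have hpi : (0:ℝ) ≤ π := Real.pi_pos.le
  have cG : CH x₁ x₂ π (fun ξ η => C * (V * (1 + ‖X (pt ξ η) - 1‖ ^ 2))) :=
    (CH_const C).mul ((CH_const V).mul ((CH_const 1).add (CH_en' hX)))
  have e : IH x₁ x₂ π (fun ξ η => C * (V * (1 + ‖X (pt ξ η) - 1‖ ^ 2))) =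
      C * (V * (π * (x₂ - x₁) + Es X x₁ x₂)) := by
    rw [IH_const_mul, IH_err_eq hx hX]
  rw [abs_le]
  constructor
  · have h1 := IH_mono hx hpi (cG.neg) cF fun ξ hξ η hη => (abs_le.1 (h ξ hξ η hη)).1
    have h2 : IH x₁ x₂ π (fun ξ η => - (C * (V * (1 + ‖X (pt ξ η) - 1‖ ^ 2)))) =
        - IH x₁ x₂ π (fun ξ η => C * (V * (1 + ‖X (pt ξ η) - 1‖ ^ 2))) := by
      have := IH_const_mul (x₁ := x₁) (x₂ := x₂) (h := π) (-1)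
        (fun ξ η => C * (V * (1 + ‖X (pt ξ η) - 1‖ ^ 2)))
      simpa using this
    rw [h2, e] at h1
    linarith
  · have h1 := IH_mono hx hpi cF cG fun ξ hξ η hη => (abs_le.1 (h ξ hξ η hη)).2
    rw [e] at h1
    linarith

variable {P : (ℂ → ℂ) → ℝ → ℝ → Prop}

theorem IsNullC.add {N N' : (ℂ → ℂ) → ℝ → ℝ → ℝ} (h : IsNullC P N) (h' : IsNullC P N') :
    IsNullC P (fun X ξ η => N X ξ η + N' X ξ η) := by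
  refine ⟨fun X x₁ x₂ hX => (h.cN X x₁ x₂ hX).add (h'.cN X x₁ x₂ hX), ?_⟩
  obtain ⟨C, hC⟩ := h.le
  obtain ⟨C', hC'⟩ := h'.le
  refine ⟨C + C', fun X x₁ x₂ V Ω Ω₁ Ω₂ hx12 hw hX hP => ?_⟩
  have h1 := hC X x₁ x₂ V Ω Ω₁ Ω₂ hx12 hw hX hP
  have h2 := hC' X x₁ x₂ V Ω Ω₁ Ω₂ hx12 hw hX hP
  have a1 : CH x₁ x₂ π (fun ξ η => Ω ξ η * N X ξ η) := hw.c0.mul (h.cN X x₁ x₂ hX)
  have a2 : CH x₁ x₂ π (fun ξ η => Ω ξ η * N' X ξ η) := hw.c0.mul (h'.cN X x₁ x₂ hX)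
  have s1 : IH x₁ x₂ π (fun ξ η => Ω ξ η * (N X ξ η + N' X ξ η)) =
      IH x₁ x₂ π (fun ξ η => Ω ξ η * N X ξ η) + IH x₁ x₂ π (fun ξ η => Ω ξ η * N' X ξ η) := by
    rw [← IH_add hx12 Real.pi_pos.le a1 a2]
    simp only [mul_add]
  rw [s1]
  rw [abs_le] at h1 h2 ⊢
  constructor <;> linarith [h1.1, h1.2, h2.1, h2.2,
    add_mul C C' (V * (π * (x₂ - x₁) + Es X x₁ x₂))]

theorem IsNullC.const_mul {N : (ℂ → ℂ) → ℝ → ℝ → ℝ} (h : IsNullC P N) (c : ℝ) :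
    IsNullC P (fun X ξ η => c * N X ξ η) := by
  refine ⟨fun X x₁ x₂ hX => (CH_const c).mul (h.cN X x₁ x₂ hX), ?_⟩
  obtain ⟨C, hC⟩ := h.le
  refine ⟨|c| * C, fun X x₁ x₂ V Ω Ω₁ Ω₂ hx hw hX hP => ?_⟩
  have h1 := hC X x₁ x₂ V Ω Ω₁ Ω₂ hx hw hX hP
  have s1 : IH x₁ x₂ π (fun ξ η => Ω ξ η * (c * N X ξ η)) =
      c * IH x₁ x₂ π (fun ξ η => Ω ξ η * N X ξ η) := by
    rw [← IH_const_mul]
    simp only [mul_left_comm c]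
  rw [s1, abs_mul, mul_assoc]
  exact mul_le_mul_of_nonneg_left h1 (abs_nonneg c)

theorem IsNullC.zero : IsNullC P (fun _ _ _ => 0) := by
  refine ⟨fun _ _ _ _ => CH_const 0, ⟨0, ?_⟩⟩
  intro X x₁ x₂ V Ω Ω₁ Ω₂ hx hw hX hP
  simp [IH]

theorem IsNullC.congr {N N' : (ℂ → ℂ) → ℝ → ℝ → ℝ} (h : IsNullC P N)
    (hN : ∀ X ξ η, N X ξ η = N' X ξ η) : IsNullC P N' := by
  have e1 : N = N' := by
    funext X ξ η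
    exact hN X ξ η
  rw [← e1]
  exact h

theorem IsNullC.mono {P' : (ℂ → ℂ) → ℝ → ℝ → Prop} (hPP : ∀ X x₁ x₂, P' X x₁ x₂ → P X x₁ x₂)
    {N : (ℂ → ℂ) → ℝ → ℝ → ℝ} (h : IsNullC P N) : IsNullC P' N := by
  refine ⟨h.cN, ?_⟩
  obtain ⟨C, hC⟩ := h.le
  exact ⟨C, fun X x₁ x₂ V Ω Ω₁ Ω₂ hx hw hX hP => hC X x₁ x₂ V Ω Ω₁ Ω₂ hx hw hX (hPP _ _ _ hP)⟩

/-- the sum over a list -/
theorem IsNullC.list {ι : Type} (L : List ι) {N : ι → (ℂ → ℂ) → ℝ → ℝ → ℝ}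
    (h : ∀ i ∈ L, IsNullC P (N i)) :
    IsNullC P (fun X ξ η => (L.map fun i => N i X ξ η).sum) := by
  induction L with
  | nil => simpa using IsNullC.zero (P := P)
  | cons i L ih =>
    have h1 := (h i (by simp)).add (ih fun j hj => h j (by simp [hj]))
    simpa only [List.map_cons, List.sum_cons] using h1

/-- derivatives in the direction of `ξ` -/
theorem isNullC_xi {F F₁ : (ℂ → ℂ) → ℝ → ℝ → ℝ}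
    (cF : ∀ (X : ℂ → ℂ) (x₁ x₂ : ℝ), NiceX X x₁ x₂ → CH x₁ x₂ π (F X))
    (cF₁ : ∀ (X : ℂ → ℂ) (x₁ x₂ : ℝ), NiceX X x₁ x₂ → CH x₁ x₂ π (F₁ X))
    (hd : ∀ (X : ℂ → ℂ) (x₁ x₂ : ℝ), NiceX X x₁ x₂ → ∀ ξ ∈ Icc x₁ x₂, ∀ η ∈ Icc (0:ℝ) π,
      HasDerivAt (fun ξ => F X ξ η) (F₁ X ξ η) ξ) {C : ℝ}
    (hC : ∀ (X : ℂ → ℂ) (x₁ x₂ : ℝ), x₁ ≤ x₂ → NiceX X x₁ x₂ → P X x₁ x₂ →
      ∀ ξ ∈ Icc x₁ x₂, ∀ η ∈ Icc (0:ℝ) π,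
        |F X ξ η| ≤ C * Real.sin η * (1 + ‖X (pt ξ η) - 1‖ ^ 2)) :
    IsNullC P F₁ := by
  refine ⟨cF₁, |C|,
    fun X x₁ x₂ V Ω Ω₁ Ω₂ hx12 hw hX hP => ?_⟩
  have hpi : (0:ℝ) ≤ π := Real.pi_pos.le
  have c1 : CH x₁ x₂ π (fun ξ η => Ω ξ η * F₁ X ξ η) := hw.c0.mul (cF₁ X x₁ x₂ hX)
  have c2 : CH x₁ x₂ π (fun ξ η => Ω₁ ξ η * F X ξ η) := hw.c1.mul (cF X x₁ x₂ hX)
  have h1 : IH x₁ x₂ π (fun ξ η => Ω ξ η * F₁ X ξ η) =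
      - IH x₁ x₂ π (fun ξ η => Ω₁ ξ η * F X ξ η) := by
    rw [IH_swap hx12 hpi c1, IH_swap hx12 hpi c2, ← intervalIntegral.integral_neg]
    refine intervalIntegral.integral_congr fun η hη => ?_
    rw [uIcc_of_le hpi] at hη
    have i1 : IntervalIntegrable (fun ξ => Ω₁ ξ η * F X ξ η) volume x₁ x₂ :=
      (CHf_line c2 hη).intervalIntegrable_of_Icc hx12
    have i2 : IntervalIntegrable (fun ξ => Ω ξ η * F₁ X ξ η) volume x₁ x₂ :=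
      (CHf_line c1 hη).intervalIntegrable_of_Icc hx12
    have h2 := intervalIntegral.integral_eq_sub_of_hasDerivAt
      (f := fun ξ => Ω ξ η * F X ξ η) (f' := fun ξ => Ω₁ ξ η * F X ξ η + Ω ξ η * F₁ X ξ η)
      (a := x₁) (b := x₂) (fun ξ hξ => by
        rw [uIcc_of_le hx12] at hξ
        exact (hw.d1 ξ hξ η hη).mul (hd X x₁ x₂ hX ξ hξ η hη)) (i1.add i2)
    rw [intervalIntegral.integral_add i1 i2, hw.e1 η hη, hw.e2 η hη] at h2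
    linarith
  rw [h1, abs_neg]
  refine err_leC hx12 hX c2 ?_
  intro ξ hξ η hη
  rw [abs_mul]
  have h2 := hC X x₁ x₂ hx12 hX hP ξ hξ η hη
  have h3 := hw.g1 ξ hξ η hη
  have hs := sin_nn' hη
  have hn : 0 ≤ 1 + ‖X (pt ξ η) - 1‖ ^ 2 := by positivity
  have h4 : |F X ξ η| ≤ |C| * Real.sin η * (1 + ‖X (pt ξ η) - 1‖ ^ 2) :=
    h2.trans (mul_le_mul_of_nonneg_right
      (mul_le_mul_of_nonneg_right (le_abs_self C) hs) hn)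
  calc |Ω₁ ξ η| * |F X ξ η| ≤ |Ω₁ ξ η| * (|C| * Real.sin η * (1 + ‖X (pt ξ η) - 1‖ ^ 2)) :=
        mul_le_mul_of_nonneg_left h4 (abs_nonneg _)
    _ = |C| * ((|Ω₁ ξ η| * Real.sin η) * (1 + ‖X (pt ξ η) - 1‖ ^ 2)) := by ring
    _ ≤ |C| * (V * (1 + ‖X (pt ξ η) - 1‖ ^ 2)) :=
        mul_le_mul_of_nonneg_left (mul_le_mul_of_nonneg_right h3 hn) (abs_nonneg C)

/-- derivatives in the direction of `η` -/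
theorem isNullC_eta {F F₂ : (ℂ → ℂ) → ℝ → ℝ → ℝ}
    (cF : ∀ (X : ℂ → ℂ) (x₁ x₂ : ℝ), NiceX X x₁ x₂ → CH x₁ x₂ π (F X))
    (cF₂ : ∀ (X : ℂ → ℂ) (x₁ x₂ : ℝ), NiceX X x₁ x₂ → CH x₁ x₂ π (F₂ X))
    (hd : ∀ (X : ℂ → ℂ) (x₁ x₂ : ℝ), NiceX X x₁ x₂ → ∀ ξ ∈ Icc x₁ x₂, ∀ η ∈ Icc (0:ℝ) π,
      HasDerivAt (fun η => F X ξ η) (F₂ X ξ η) η)
    (h0 : ∀ (X : ℂ → ℂ) (ξ : ℝ), F X ξ 0 = 0) (h1 : ∀ (X : ℂ → ℂ) (ξ : ℝ), F X ξ π = 0) {C : ℝ}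
    (hC : ∀ (X : ℂ → ℂ) (x₁ x₂ : ℝ), x₁ ≤ x₂ → NiceX X x₁ x₂ → P X x₁ x₂ →
      ∀ ξ ∈ Icc x₁ x₂, ∀ η ∈ Icc (0:ℝ) π,
        |F X ξ η| ≤ C * Real.sin η * (1 + ‖X (pt ξ η) - 1‖ ^ 2)) :
    IsNullC P F₂ := by
  have hpi : (0:ℝ) ≤ π := Real.pi_pos.le
  refine ⟨cF₂, |C|,
    fun X x₁ x₂ V Ω Ω₁ Ω₂ hx12 hw hX hP => ?_⟩
  have c1 : CH x₁ x₂ π (fun ξ η => Ω ξ η * F₂ X ξ η) := hw.c0.mul (cF₂ X x₁ x₂ hX)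
  have c2 : CH x₁ x₂ π (fun ξ η => Ω₂ ξ η * F X ξ η) := hw.c2.mul (cF X x₁ x₂ hX)
  have k1 : IH x₁ x₂ π (fun ξ η => Ω₂ ξ η * F X ξ η + Ω ξ η * F₂ X ξ η) = 0 := by
    unfold IH
    have k2 : ∫ ξ in x₁..x₂, ∫ η in (0:ℝ)..π, (Ω₂ ξ η * F X ξ η + Ω ξ η * F₂ X ξ η) =
        ∫ ξ in x₁..x₂, (0:ℝ) := by
      refine intervalIntegral.integral_congr fun ξ hξ => ?_
      rw [uIcc_of_le hx12] at hξ
      have i1 : IntervalIntegrable (fun η => Ω₂ ξ η * F X ξ η) volume 0 π :=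
        (CHf_col c2 hξ).intervalIntegrable_of_Icc hpi
      have i2 : IntervalIntegrable (fun η => Ω ξ η * F₂ X ξ η) volume 0 π :=
        (CHf_col c1 hξ).intervalIntegrable_of_Icc hpi
      have h2 := intervalIntegral.integral_eq_sub_of_hasDerivAt
        (f := fun η => Ω ξ η * F X ξ η) (f' := fun η => Ω₂ ξ η * F X ξ η + Ω ξ η * F₂ X ξ η)
        (a := 0) (b := π) (fun η hη => by
          rw [uIcc_of_le hpi] at hη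
          exact (hw.d2 ξ hξ η hη).mul (hd X x₁ x₂ hX ξ hξ η hη)) (i1.add i2)
      rw [h2, h0, h1, mul_zero, mul_zero, sub_zero]
    rw [k2]
    simp
  rw [IH_add hx12 hpi c2 c1] at k1
  have h3 : IH x₁ x₂ π (fun ξ η => Ω ξ η * F₂ X ξ η) =
      - IH x₁ x₂ π (fun ξ η => Ω₂ ξ η * F X ξ η) := by linarith
  rw [h3, abs_neg]
  refine err_leC hx12 hX c2 ?_
  intro ξ hξ η hη
  rw [abs_mul]
  have h2 := hC X x₁ x₂ hx12 hX hP ξ hξ η hη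
  have h3 := hw.g2 ξ hξ η hη
  have hs := sin_nn' hη
  have hn : 0 ≤ 1 + ‖X (pt ξ η) - 1‖ ^ 2 := by positivity
  have h4 : |F X ξ η| ≤ |C| * Real.sin η * (1 + ‖X (pt ξ η) - 1‖ ^ 2) :=
    h2.trans (mul_le_mul_of_nonneg_right
      (mul_le_mul_of_nonneg_right (le_abs_self C) hs) hn)
  calc |Ω₂ ξ η| * |F X ξ η| ≤ |Ω₂ ξ η| * (|C| * Real.sin η * (1 + ‖X (pt ξ η) - 1‖ ^ 2)) :=
        mul_le_mul_of_nonneg_left h4 (abs_nonneg _)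
    _ = |C| * ((|Ω₂ ξ η| * Real.sin η) * (1 + ‖X (pt ξ η) - 1‖ ^ 2)) := by ring
    _ ≤ |C| * (V * (1 + ‖X (pt ξ η) - 1‖ ^ 2)) :=
        mul_le_mul_of_nonneg_left (mul_le_mul_of_nonneg_right h3 hn) (abs_nonneg C)

end Pool.Agent.Helper69.CKC
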