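import Pool.Agent.Helper69.CKC.PotC
set_option autoImplicit false
open Complex MeasureTheory Metric Set
open scoped Real ComplexConjugate

/-!
# Project CKC: from the pointwise certificate to the integrated inequality, direction `u`
-/

namespace Pool.Agent.Helper69.CKC

open Pool.Agent.Helper52.EK Pool.Agent.Helper69.EK3 Pool.Agent.Helper69.EK7
open Pool.Agent.Helper84.CK

/-- the linear function of the direction `u` -/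
noncomputable def fu (u X : ℂ) : ℝ := (conj u * ((1 + u) / 2 - X)).re

theorem fu_abs {u : ℂ} (hu : ‖u‖ = 1) (X : ℂ) : |fu u X| ≤ ‖X - (1 + u) / 2‖ := by
  unfold fu
  refine (abs_re_le_norm _).trans ?_
  rw [norm_mul, RCLike.norm_conj, hu, one_mul, norm_sub_rev]

theorem area_u {u : ℂ} (hu : ‖u‖ = 1) (X : ℂ) :
    ‖X‖ ^ 2 - X.re = ‖X - (1 + u) / 2‖ ^ 2 - fu u X := by
  have h1 : u.re ^ 2 + u.im ^ 2 = 1 := by
    have h2 : ‖u‖ ^ 2 = 1 := by rw [hu]; norm_num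
    rw [← normSq_eq_norm_sq, normSq_apply] at h2
    linarith
  unfold fu
  rw [← normSq_eq_norm_sq, ← normSq_eq_norm_sq, normSq_apply, normSq_apply]
  have e1 : ((1 + u) / 2).re = (1 + u.re) / 2 := by
    rw [show (1 + u) / 2 = (1 + u) / ((2:ℝ) : ℂ) by norm_num, div_ofReal_re, add_re, one_re]
  have e2 : ((1 + u) / 2).im = u.im / 2 := by
    rw [show (1 + u) / 2 = (1 + u) / ((2:ℝ) : ℂ) by norm_num, div_ofReal_im, add_im, one_im,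
      zero_add]
  simp only [sub_re, sub_im, mul_re, conj_re, conj_im, e1, e2]
  linear_combination (-1 / 4) * h1 + (1 / 2) * h1

theorem CH_fu {X : ℂ → ℂ} {x₁ x₂ : ℝ} (u : ℂ) (hX : NiceX X x₁ x₂) :
    CH x₁ x₂ π (fun ξ η => fu u (X (pt ξ η))) :=
  CH_comp (h := π) hX.an.continuousOn (W := fun X => fu u X) (by unfold fu; fun_prop)

variable {P : (ℂ → ℂ) → ℝ → ℝ → Prop}

theorem II_eq_IH (x₁ x₂ : ℝ) (F : ℝ → ℝ → ℝ) : II x₁ x₂ F = IH x₁ x₂ π F := rfl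

/-- The assembly in the full strip. -/
theorem stripC {k₂ lam dc D : ℝ} (hlam : 0 ≤ lam) (hk₂ : lam ≤ k₂) (hdc : 0 ≤ dc) {u : ℂ}
    (hu : ‖u‖ = 1) {T Mt : (ℂ → ℂ) → ℝ → ℝ → ℝ}
    (hTc : ∀ (X : ℂ → ℂ) (x₁ x₂ : ℝ), NiceX X x₁ x₂ → CH x₁ x₂ π (T X))
    (hMc : ∀ (X : ℂ → ℂ) (x₁ x₂ : ℝ), NiceX X x₁ x₂ → CH x₁ x₂ π (Mt X))
    {N : (ℂ → ℂ) → ℝ → ℝ → ℝ} (hN : IsNullC P N)
    (hp : ∀ (X : ℂ → ℂ) (x₁ x₂ : ℝ), x₁ ≤ x₂ → NiceX X x₁ x₂ → P X x₁ x₂ →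
      ∃ ε : ℝ → ℝ, Continuous ε ∧ (∀ ξ, 0 ≤ ε ξ) ∧ ∫ ξ in x₁..x₂, ε ξ ≤ D ∧
        ∀ ξ ∈ Icc x₁ x₂, ∀ η ∈ Icc (0:ℝ) π,
          T X ξ η ≤ k₂ * fu u (X (pt ξ η)) +
            lam * (‖X (pt ξ η)‖ ^ 2 - (X (pt ξ η)).re) + dc + N X ξ η + Mt X ξ η + ε ξ) :
    ∃ C : ℝ, 0 ≤ C ∧ ∀ (X : ℂ → ℂ) (x₁ x₂ V g : ℝ) (Ω Ω₁ Ω₂ : ℝ → ℝ → ℝ), x₁ ≤ x₂ → 0 < g →
      WtF x₁ x₂ V Ω Ω₁ Ω₂ → NiceX X x₁ x₂ → P X x₁ x₂ →
      II x₁ x₂ (fun ξ η => Ω ξ η * T X ξ η) ≤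
      (k₂ - lam) * II x₁ x₂ (fun ξ η => fu u (X (pt ξ η))) +
        (lam + g) * II x₁ x₂ (fun ξ η => ‖X (pt ξ η) - (1 + u) / 2‖ ^ 2) +
        (k₂ - lam) ^ 2 / (4 * g) * II x₁ x₂ (fun ξ η => 1 - Ω ξ η) +
        dc * (π * (x₂ - x₁)) + II x₁ x₂ (fun ξ η => Ω ξ η * Mt X ξ η) +
        C * (1 + V * (π * (x₂ - x₁) + II x₁ x₂ (fun ξ η => ‖X (pt ξ η) - 1‖ ^ 2))) := by
  obtain ⟨C₁, hC₁⟩ := hN.le
  refine ⟨|C₁| + π * |D|, by positivity, fun X x₁ x₂ V g Ω Ω₁ Ω₂ hx12 hg hw hX hP => ?_⟩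
  have hpi : (0:ℝ) ≤ π := Real.pi_pos.le
  have hkl : 0 ≤ k₂ - lam := by linarith
  have hV := V0_of hx12 hw
  obtain ⟨ε, cε, ε0, εD, hε⟩ := hp X x₁ x₂ hx12 hX hP
  have b1 := hC₁ X x₁ x₂ V Ω Ω₁ Ω₂ hx12 hw hX hP
  have hen := Es_nonneg (X := X) hx12
  have cT : CH x₁ x₂ π (T X) := hTc X x₁ x₂ hX
  have cA : CH x₁ x₂ π (fun ξ η => ‖X (pt ξ η) - (1 + u) / 2‖ ^ 2) :=
    CH_comp (h := π) hX.an.continuousOn (W := fun X => ‖X - (1 + u) / 2‖ ^ 2) (by fun_prop)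
  have f1 : CH x₁ x₂ π (fun ξ η => (k₂ - lam) * fu u (X (pt ξ η))) :=
    (CH_const _).mul (CH_fu u hX)
  have f2 : CH x₁ x₂ π (fun ξ η => (lam + g) * ‖X (pt ξ η) - (1 + u) / 2‖ ^ 2) :=
    (CH_const _).mul cA
  have f3 : CH x₁ x₂ π (fun ξ η => (k₂ - lam) ^ 2 / (4 * g) * (1 - Ω ξ η)) :=
    (CH_const _).mul ((CH_const 1).sub hw.c0)
  have f4 : CH x₁ x₂ π (fun _ _ => dc * 1) := CH_const _
  have f5 : CH x₁ x₂ π (fun ξ η => Ω ξ η * N X ξ η) := hw.c0.mul (hN.cN X x₁ x₂ hX)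
  have f6 : CH x₁ x₂ π (fun ξ η => Ω ξ η * Mt X ξ η) := hw.c0.mul (hMc X x₁ x₂ hX)
  have f7 : CH x₁ x₂ π (fun ξ _ => ε ξ) := CH_xi cε
  have m := IH_mono hx12 hpi (hw.c0.mul cT) ((((((f1.add f2).add f3).add f4).add f5).add f6).add
    f7) (by
    intro ξ hξ η hη
    have h1 := hε ξ hξ η hη
    obtain ⟨w0, w1⟩ := hw.b01 ξ hξ η hη
    have h2 := mul_le_mul_of_nonneg_left h1 w0
    refine h2.trans ?_
    rw [area_u hu]
    obtain ⟨t, ht⟩ : ∃ t, t = ‖X (pt ξ η) - (1 + u) / 2‖ := ⟨_, rfl⟩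
    obtain ⟨f, hf⟩ : ∃ f, f = fu u (X (pt ξ η)) := ⟨_, rfl⟩
    obtain ⟨o, ho⟩ : ∃ o, o = Ω ξ η := ⟨_, rfl⟩
    have h3 : |f| ≤ t := by rw [hf, ht]; exact fu_abs hu _
    rw [← ho] at w0 w1
    rw [← ho, ← ht, ← hf]
    have h4 : o * ε ξ ≤ ε ξ := mul_le_of_le_one_left (ε0 ξ) w1
    have h5 : o * (lam * t ^ 2) ≤ lam * t ^ 2 :=
      mul_le_of_le_one_left (mul_nonneg hlam (sq_nonneg _)) w1
    have h6 : o * dc ≤ dc := mul_le_of_le_one_left hdc w1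
    have h7 : -((k₂ - lam) * f) ≤ g * t ^ 2 + (k₂ - lam) ^ 2 / (4 * g) := by
      have h8 : -((k₂ - lam) * f) ≤ (k₂ - lam) * t := by
        have := neg_abs_le f
        nlinarith
      refine h8.trans ?_
      have h9 : g * t ^ 2 + (k₂ - lam) ^ 2 / (4 * g) - (k₂ - lam) * t =
          (2 * g * t - (k₂ - lam)) ^ 2 / (4 * g) := by
        field_simp
        ring
      have h10 : 0 ≤ (2 * g * t - (k₂ - lam)) ^ 2 / (4 * g) := by positivity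
      linarith
    have h11 := mul_le_mul_of_nonneg_left h7 (by linarith : 0 ≤ 1 - o)
    have h12 : (1 - o) * (g * t ^ 2) ≤ g * t ^ 2 :=
      mul_le_of_le_one_left (by positivity) (by linarith)
    have h13 : o * (k₂ * f + lam * (t ^ 2 - f) + dc + N X ξ η + Mt X ξ η + ε ξ) =
        (k₂ - lam) * f + (1 - o) * -((k₂ - lam) * f) + o * (lam * t ^ 2) + o * dc +
          o * N X ξ η + o * Mt X ξ η + o * ε ξ := by ring
    rw [h13]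
    have h14 : (1 - o) * (g * t ^ 2 + (k₂ - lam) ^ 2 / (4 * g)) =
        (1 - o) * (g * t ^ 2) + (k₂ - lam) ^ 2 / (4 * g) * (1 - o) := by ring
    rw [h14] at h11
    linarith)
  rw [IH_add hx12 hpi (((((f1.add f2).add f3).add f4).add f5).add f6) f7,
    IH_add hx12 hpi ((((f1.add f2).add f3).add f4).add f5) f6,
    IH_add hx12 hpi (((f1.add f2).add f3).add f4) f5,
    IH_add hx12 hpi ((f1.add f2).add f3) f4, IH_add hx12 hpi (f1.add f2) f3,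
    IH_add hx12 hpi f1 f2, IH_const_mul, IH_const_mul, IH_const_mul, IH_const_mul] at m
  have e4 : IH x₁ x₂ π (fun _ _ => (1:ℝ)) = π * (x₂ - x₁) := by
    unfold IH
    simp
    ring
  have e7 : IH x₁ x₂ π (fun ξ _ => ε ξ) ≤ π * |D| := by
    have e8 : IH x₁ x₂ π (fun ξ _ => ε ξ) = π * ∫ ξ in x₁..x₂, ε ξ := by
      unfold IH
      simp
    rw [e8]
    exact mul_le_mul_of_nonneg_left (εD.trans (le_abs_self D)) hpi
  rw [e4] at m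
  have b2 := (le_abs_self _).trans b1
  simp only [II_eq_IH]
  change _ ≤ _ + (|C₁| + π * |D|) * (1 + V * (π * (x₂ - x₁) + Es X x₁ x₂))
  obtain ⟨F, hF⟩ : ∃ F, F = V * (π * (x₂ - x₁) + Es X x₁ x₂) := ⟨_, rfl⟩
  have hF0 : 0 ≤ F := by
    rw [hF]
    have : 0 ≤ x₂ - x₁ := by linarith
    positivity
  rw [← hF] at b2 ⊢
  have b3 : C₁ * F ≤ |C₁| * F := mul_le_mul_of_nonneg_right (le_abs_self _) hF0
  have b4 : 0 ≤ π * |D| * F := by positivity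
  have b5 : (|C₁| + π * |D|) * (1 + F) = |C₁| + |C₁| * F + π * |D| + π * |D| * F := by ring
  have b6 := abs_nonneg C₁
  rw [b5]
  linarith

end Pool.Agent.Helper69.CKC
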